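import Pool.Agent.H26.OS.L.Conc

/-! # The asymptotic formula in short intervals for models with independence of fixed order -/

set_option autoImplicit false

namespace Q198.CI

open Finset MeasureTheory Filter Topology

/-- the length of the intervals at scale `i` -/
noncomputable def FF (m : ℕ) (ε : ℝ) (i : ℕ) : ℝ :=
  (2:ℝ) ^ ((i : ℝ) / (m + 1)) * ((i : ℝ) * Real.log 2) ^ (1 + ε)

/-- the length of the grid -/
noncomputable def gg (m : ℕ) (ε δ : ℝ) (i : ℕ) : ℕ := ⌊δ * FF m ε i⌋₊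

lemma FF_pow (m : ℕ) (ε : ℝ) (i : ℕ) : FF m ε i ^ (m + 1) =
    2 ^ i * ((i : ℝ) * Real.log 2) ^ ((1 + ε) * (m + 1)) := by
  unfold FF
  have h0 : 0 ≤ (i : ℝ) * Real.log 2 := mul_nonneg (Nat.cast_nonneg _) (Real.log_nonneg (by norm_num))
  rw [mul_pow, ← Real.rpow_natCast, ← Real.rpow_mul (by norm_num), ← Real.rpow_natCast,
    ← Real.rpow_mul h0]
  have hm : ((m : ℝ) + 1) ≠ 0 := by positivity
  congr 1
  · rw [← Real.rpow_natCast]
    congr 1
    push_cast
    field_simp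
  · push_cast
    rfl

/-- the good event at scale `i` -/
def good {Ω : Type*} (E : ℕ → Set Ω) (g : ℕ) (δ : ℝ) (i : ℕ) : Set Ω :=
  {ω | ∀ j : ℕ, 2 ^ (i - 1) ≤ j * g → (j + 1) * g ≤ 2 ^ (i + 3) →
    (1 - δ) * ((g : ℝ) / ((i + 3) * Real.log 2)) ≤ cnt E (Ioc (j * g) ((j + 1) * g)) ω ∧
    cnt E (Ioc (j * g) ((j + 1) * g)) ω ≤ (1 + δ) * ((g : ℝ) / ((i - 1) * Real.log 2))}

lemma good_prob {Ω : Type*} [MeasurableSpace Ω] {P : Measure Ω} [IsProbabilityMeasure P]
    {κ : ℕ → ℕ} {E : ℕ → Set Ω} (hM : Model P κ E) {m : ℕ} (hm : 0 < m) {g i : ℕ} (hi : 3 ≤ i)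
    (hg : 0 < g) (hκ : ∀ n, 2 ^ (i - 1) ≤ n → 2 * m ≤ κ n)
    (hl : 2 * m * ((i + 3) * Real.log 2) ≤ g) {δ : ℝ} (hδ : 0 < δ) (hδ1 : δ ≤ 1) :
    P (good E g δ i)ᶜ ≤ ENNReal.ofReal ((2:ℝ) ^ (i + 3) / g *
      (2 * (Real.exp 2 * (2 * m) * ((i + 3) * Real.log 2) / (δ ^ 2 * g)) ^ m)) := by
  classical
  have hl2 : 0 < Real.log 2 := Real.log_pos (by norm_num)
  have hg' : (0:ℝ) < g := by exact_mod_cast hg
  have hi3 : (3:ℝ) ≤ i := by exact_mod_cast hi
  set bad : ℕ → Set Ω := fun j => if 2 ^ (i - 1) ≤ j * g then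
    {ω | ¬ ((1 - δ) * (((((j + 1) * g : ℕ) : ℝ) - (j * g : ℕ)) / Real.log ((j + 1) * g : ℕ)) ≤
        cnt E (Ioc (j * g) ((j + 1) * g)) ω ∧
      cnt E (Ioc (j * g) ((j + 1) * g)) ω ≤ (1 + δ) * (((((j + 1) * g : ℕ) : ℝ) - (j * g : ℕ)) /
        Real.log (j * g : ℕ)))} else ∅ with hbad
  have hsub : (good E g δ i)ᶜ ⊆ ⋃ j ∈ range (2 ^ (i + 3) / g), bad j := by
    intro ω hω
    unfold good at hω
    simp only [Set.mem_compl_iff, Set.mem_ofPred_eq, not_forall] at hω
    obtain ⟨j, hj1, hj2, hj3⟩ := hω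
    simp only [Set.mem_iUnion]
    refine ⟨j, ?_, ?_⟩
    · rw [mem_range]
      rw [← Nat.succ_le_iff, Nat.le_div_iff_mul_le hg]
      exact hj2
    · simp only [hbad, if_pos hj1, Set.mem_ofPred_eq]
      intro hc
      apply hj3
      have e0 : (((j + 1) * g : ℕ) : ℝ) - ((j * g : ℕ) : ℝ) = g := by
        push_cast
        ring
      have hpos : 0 < j * g := lt_of_lt_of_le (by positivity) hj1
      have e1 : Real.log (((j + 1) * g : ℕ) : ℝ) ≤ (i + 3) * Real.log 2 := by
        have : Real.log (((j + 1) * g : ℕ) : ℝ) ≤ Real.log ((2:ℝ) ^ (i + 3)) := by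
          apply Real.log_le_log
          · exact_mod_cast (by positivity)
          · exact_mod_cast hj2
        rw [Real.log_pow] at this
        push_cast at this ⊢
        exact this
      have e2 : (i - 1) * Real.log 2 ≤ Real.log ((j * g : ℕ) : ℝ) := by
        have : Real.log ((2:ℝ) ^ (i - 1)) ≤ Real.log ((j * g : ℕ) : ℝ) := by
          apply Real.log_le_log
          · positivity
          · exact_mod_cast hj1
        rw [Real.log_pow, Nat.cast_sub (by omega : 1 ≤ i)] at this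
        push_cast at this ⊢
        exact this
      have e3 : 0 < (i - 1) * Real.log 2 := by
        apply mul_pos _ hl2
        linarith
      have e4 : 0 < Real.log (((j + 1) * g : ℕ) : ℝ) := by
        apply Real.log_pos
        have h4 : 2 ^ 1 ≤ 2 ^ (i - 1) := Nat.pow_le_pow_right (by norm_num) (by omega)
        have : 1 < (j + 1) * g := by
          have : j * g ≤ (j + 1) * g := Nat.mul_le_mul_right _ (by omega)
          omega
        exact_mod_cast this
      rw [e0] at hc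
      constructor
      · refine le_trans ?_ hc.1
        apply mul_le_mul_of_nonneg_left _ (by linarith)
        exact div_le_div_of_nonneg_left hg'.le e4 e1
      · refine hc.2.trans ?_
        apply mul_le_mul_of_nonneg_left _ (by linarith)
        exact div_le_div_of_nonneg_left hg'.le e3 e2
  set B : ℝ := 2 * (Real.exp 2 * (2 * m) * ((i + 3) * Real.log 2) / (δ ^ 2 * g)) ^ m with hB
  have hB0 : 0 ≤ B := by positivity
  have hbj : ∀ j ∈ range (2 ^ (i + 3) / g), P (bad j) ≤ ENNReal.ofReal B := by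
    intro j hj
    rw [mem_range, ← Nat.succ_le_iff, Nat.le_div_iff_mul_le hg] at hj
    have hj' : (j + 1) * g ≤ 2 ^ (i + 3) := hj
    simp only [hbad]
    split_ifs with hj1
    · have e0 : (((j + 1) * g : ℕ) : ℝ) - ((j * g : ℕ) : ℝ) = g := by
        push_cast
        ring
      have hpos : 0 < j * g := lt_of_lt_of_le (by positivity) hj1
      have h4 : 2 ^ 1 ≤ 2 ^ (i - 1) := Nat.pow_le_pow_right (by norm_num) (by omega)
      have hjj : (j + 1) * g = j * g + g := by ring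
      have e1 : Real.log (((j + 1) * g : ℕ) : ℝ) ≤ (i + 3) * Real.log 2 := by
        have : Real.log (((j + 1) * g : ℕ) : ℝ) ≤ Real.log ((2:ℝ) ^ (i + 3)) := by
          apply Real.log_le_log
          · exact_mod_cast (by positivity)
          · exact_mod_cast hj'
        rw [Real.log_pow] at this
        push_cast at this ⊢
        exact this
      have e4 : 0 < Real.log (((j + 1) * g : ℕ) : ℝ) := by
        apply Real.log_pos
        have : 1 < (j + 1) * g := by omega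
        exact_mod_cast this
      have hc := interval_conc hM hm (a := j * g) (b := (j + 1) * g) (by omega) (by omega)
        (fun n hn => by
          rw [mem_Ioc] at hn
          exact hκ n (by omega)) (by
          rw [e0]
          refine le_trans ?_ hl
          exact mul_le_mul_of_nonneg_left e1 (by positivity)) hδ
      refine hc.trans (ENNReal.ofReal_le_ofReal ?_)
      rw [hB, e0]
      apply mul_le_mul_of_nonneg_left _ (by norm_num)
      apply pow_le_pow_left₀ (by positivity)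
      apply div_le_div_of_nonneg_right _ (by positivity)
      exact mul_le_mul_of_nonneg_left e1 (by positivity)
    · simp
  refine (measure_mono hsub).trans ((measure_biUnion_finset_le _ _).trans ?_)
  refine (sum_le_sum hbj).trans ?_
  rw [sum_const, card_range, nsmul_eq_mul, ← ENNReal.ofReal_natCast,
    ← ENNReal.ofReal_mul (Nat.cast_nonneg _)]
  apply ENNReal.ofReal_le_ofReal
  apply mul_le_mul_of_nonneg_right _ hB0
  have := Nat.cast_div_le (α := ℝ) (m := 2 ^ (i + 3)) (n := g)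
  push_cast at this
  exact this

lemma sum_blocks (c : ℕ → ℝ) (g : ℕ) {a b : ℕ} (hab : a ≤ b) :
    ∑ n ∈ Ioc (a * g) (b * g), c n = ∑ j ∈ Ico a b, ∑ n ∈ Ioc (j * g) ((j + 1) * g), c n := by
  induction b, hab using Nat.le_induction with
  | base => simp
  | succ b hab ih =>
    rw [sum_Ico_succ_top hab, ← ih]
    rw [← sum_Ioc_consecutive c (Nat.mul_le_mul_right g hab) (Nat.mul_le_mul_right g (Nat.le_succ b))]

lemma det_count {c : ℕ → ℝ} (hc : ∀ n, 0 ≤ c n) {g i : ℕ} {δ : ℝ} (hg : 0 < g)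
    (hg2 : g ≤ 2 ^ (i - 1)) (hδ : 0 < δ) (hδ1 : δ ≤ 1 / 4) (hi : 3 / δ ≤ i)
    (hgood : ∀ j : ℕ, 2 ^ (i - 1) ≤ j * g → (j + 1) * g ≤ 2 ^ (i + 3) →
      (1 - δ) * ((g : ℝ) / ((i + 3) * Real.log 2)) ≤ ∑ n ∈ Ioc (j * g) ((j + 1) * g), c n ∧
      ∑ n ∈ Ioc (j * g) ((j + 1) * g), c n ≤ (1 + δ) * ((g : ℝ) / ((i - 1) * Real.log 2)))
    {x H : ℝ} (hx1 : 2 ^ i ≤ x) (hx2 : x < 2 ^ (i + 1)) (hH1 : (g : ℝ) ≤ δ * H) (hH2 : H ≤ x) :
    |(∑ n ∈ Ioc ⌊x⌋₊ ⌊x + H⌋₊, c n) * Real.log x / H - 1| ≤ 10 * δ := by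
  have hl2 : 0 < Real.log 2 := Real.log_pos (by norm_num)
  have hg' : (0:ℝ) < g := by exact_mod_cast hg
  have hH0 : 0 < H := by
    by_contra h
    have : δ * H ≤ 0 := mul_nonpos_of_nonneg_of_nonpos hδ.le (not_lt.1 h)
    linarith
  have hi12 : (12:ℝ) ≤ i := by
    refine le_trans ?_ hi
    rw [le_div_iff₀ hδ]
    linarith
  have hi12' : 12 ≤ i := by exact_mod_cast hi12
  have hx0 : 0 < x := lt_of_lt_of_le (by positivity) hx1
  have hi3 : 3 ≤ δ * i := by
    rw [div_le_iff₀ hδ] at hi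
    linarith
  -- powers
  have hp1 : (2:ℝ) ^ i = 2 * 2 ^ (i - 1) := by
    rw [← pow_succ']
    congr 1
    omega
  have hp2 : (2:ℝ) ^ (i + 1) = 4 * 2 ^ (i - 1) := by
    rw [pow_succ, hp1]
    ring
  have hp3 : (2:ℝ) ^ (i + 3) = 16 * 2 ^ (i - 1) := by
    rw [pow_add, hp1]
    ring
  have hg2' : (g:ℝ) ≤ 2 ^ (i - 1) := by exact_mod_cast hg2
  have hlogx1 : i * Real.log 2 ≤ Real.log x := by
    rw [← Real.log_pow]
    exact Real.log_le_log (by positivity) hx1
  have hlogx2 : Real.log x ≤ (i + 1) * Real.log 2 := by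
    have : Real.log x ≤ Real.log ((2:ℝ) ^ (i + 1)) := Real.log_le_log hx0 hx2.le
    rw [Real.log_pow] at this
    push_cast at this
    exact this
  have hlogx0 : 0 < Real.log x := lt_of_lt_of_le (by positivity) hlogx1
  set N : ℝ := ∑ n ∈ Ioc ⌊x⌋₊ ⌊x + H⌋₊, c n with hN
  -- lower bound
  have hlow : (1 - δ) * ((1 - 2 * δ) * H / ((i + 3) * Real.log 2)) ≤ N := by
    set j₁ : ℕ := ⌈x / g⌉₊ with hj₁
    set j₂ : ℕ := ⌊(x + H) / g⌋₊ with hj₂
    have e1 : x ≤ j₁ * g := by
      have := Nat.le_ceil (x / g)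
      rw [div_le_iff₀ hg'] at this
      exact this
    have e2 : (j₁ : ℝ) * g ≤ x + g := by
      have := Nat.ceil_lt_add_one (show 0 ≤ x / g by positivity)
      rw [← hj₁] at this
      have h2 : (j₁ : ℝ) * g < (x / g + 1) * g := mul_lt_mul_of_pos_right this hg'
      have h3 : (x / g + 1) * g = x + g := by field_simp
      linarith
    have e3 : (j₂ : ℝ) * g ≤ x + H := by
      have := Nat.floor_le (show 0 ≤ (x + H) / g by positivity)
      rw [← hj₂, le_div_iff₀ hg'] at this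
      exact this
    have e4 : x + H - g ≤ j₂ * g := by
      have := Nat.lt_floor_add_one ((x + H) / g)
      rw [← hj₂, div_lt_iff₀ hg'] at this
      linarith
    have hHg : 4 * (g:ℝ) ≤ H := by nlinarith
    have e5 : j₁ ≤ j₂ := by
      have : (j₁ : ℝ) * g ≤ j₂ * g := by linarith
      have := le_of_mul_le_mul_right this hg'
      exact_mod_cast this
    have e6 : Ioc (j₁ * g) (j₂ * g) ⊆ Ioc ⌊x⌋₊ ⌊x + H⌋₊ := by
      apply Ioc_subset_Ioc
      · apply Nat.floor_le_of_le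
        push_cast
        exact e1
      · apply Nat.le_floor
        push_cast
        exact e3
    have e7 : ∑ n ∈ Ioc (j₁ * g) (j₂ * g), c n ≤ N :=
      sum_le_sum_of_subset_of_nonneg e6 fun n _ _ => hc n
    rw [sum_blocks c g e5] at e7
    refine le_trans ?_ e7
    have e8 : ∀ j ∈ Ico j₁ j₂, (1 - δ) * ((g : ℝ) / ((i + 3) * Real.log 2)) ≤
        ∑ n ∈ Ioc (j * g) ((j + 1) * g), c n := by
      intro j hj
      rw [mem_Ico] at hj
      refine (hgood j ?_ ?_).1
      · have h1 : (2:ℝ) ^ (i - 1) ≤ ((j * g : ℕ) : ℝ) := by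
          push_cast
          have : (j₁ : ℝ) ≤ j := by exact_mod_cast hj.1
          have : (j₁ : ℝ) * g ≤ j * g := mul_le_mul_of_nonneg_right this hg'.le
          have : (0:ℝ) < 2 ^ (i - 1) := by positivity
          linarith
        exact_mod_cast h1
      · have h1 : (((j + 1) * g : ℕ) : ℝ) ≤ (2:ℝ) ^ (i + 3) := by
          push_cast
          have : (j : ℝ) + 1 ≤ j₂ := by exact_mod_cast hj.2
          have : ((j : ℝ) + 1) * g ≤ j₂ * g := mul_le_mul_of_nonneg_right this hg'.le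
          have : (0:ℝ) < 2 ^ (i - 1) := by positivity
          linarith
        exact_mod_cast h1
    have e9 := card_nsmul_le_sum _ _ _ e8
    rw [Nat.card_Ico, nsmul_eq_mul, Nat.cast_sub e5] at e9
    refine le_trans ?_ e9
    have e10 : (1 - 2 * δ) * H ≤ ((j₂ : ℝ) - j₁) * g := by nlinarith
    have e11 : 0 ≤ (1 - δ) / ((i + 3) * Real.log 2) := by
      apply div_nonneg (by linarith) (by positivity)
    calc (1 - δ) * ((1 - 2 * δ) * H / ((i + 3) * Real.log 2))
        = ((1 - 2 * δ) * H) * ((1 - δ) / ((i + 3) * Real.log 2)) := by ring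
      _ ≤ (((j₂ : ℝ) - j₁) * g) * ((1 - δ) / ((i + 3) * Real.log 2)) :=
          mul_le_mul_of_nonneg_right e10 e11
      _ = _ := by ring
  -- upper bound
  have hi1 : 0 < (i - 1) * Real.log 2 := by
    apply mul_pos _ hl2
    linarith
  have hupp : N ≤ (1 + δ) * ((1 + 2 * δ) * H / ((i - 1) * Real.log 2)) := by
    set j₁ : ℕ := ⌊x / g⌋₊ with hj₁
    set j₂ : ℕ := ⌈(x + H) / g⌉₊ with hj₂
    have e1 : (j₁ : ℝ) * g ≤ x := by
      have := Nat.floor_le (show 0 ≤ x / g by positivity)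
      rw [← hj₁, le_div_iff₀ hg'] at this
      exact this
    have e2 : x - g ≤ (j₁ : ℝ) * g := by
      have := Nat.lt_floor_add_one (x / g)
      rw [← hj₁, div_lt_iff₀ hg'] at this
      linarith
    have e3 : x + H ≤ (j₂ : ℝ) * g := by
      have := Nat.le_ceil ((x + H) / g)
      rw [div_le_iff₀ hg'] at this
      exact this
    have e4 : (j₂ : ℝ) * g ≤ x + H + g := by
      have := Nat.ceil_lt_add_one (show 0 ≤ (x + H) / g by positivity)
      rw [← hj₂] at this
      have h2 : (j₂ : ℝ) * g < ((x + H) / g + 1) * g := mul_lt_mul_of_pos_right this hg'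
      have h3 : ((x + H) / g + 1) * g = x + H + g := by field_simp
      linarith
    have e5 : j₁ ≤ j₂ := by
      have : (j₁ : ℝ) * g ≤ j₂ * g := by linarith
      have := le_of_mul_le_mul_right this hg'
      exact_mod_cast this
    have e6 : Ioc ⌊x⌋₊ ⌊x + H⌋₊ ⊆ Ioc (j₁ * g) (j₂ * g) := by
      apply Ioc_subset_Ioc
      · apply Nat.le_floor
        push_cast
        exact e1
      · apply Nat.floor_le_of_le
        push_cast
        exact e3
    have e7 : N ≤ ∑ n ∈ Ioc (j₁ * g) (j₂ * g), c n :=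
      sum_le_sum_of_subset_of_nonneg e6 fun n _ _ => hc n
    rw [sum_blocks c g e5] at e7
    refine e7.trans ?_
    have e8 : ∀ j ∈ Ico j₁ j₂, ∑ n ∈ Ioc (j * g) ((j + 1) * g), c n ≤
        (1 + δ) * ((g : ℝ) / ((i - 1) * Real.log 2)) := by
      intro j hj
      rw [mem_Ico] at hj
      refine (hgood j ?_ ?_).2
      · have h1 : (2:ℝ) ^ (i - 1) ≤ ((j * g : ℕ) : ℝ) := by
          push_cast
          have : (j₁ : ℝ) ≤ j := by exact_mod_cast hj.1
          have : (j₁ : ℝ) * g ≤ j * g := mul_le_mul_of_nonneg_right this hg'.le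
          linarith
        exact_mod_cast h1
      · have h1 : (((j + 1) * g : ℕ) : ℝ) ≤ (2:ℝ) ^ (i + 3) := by
          push_cast
          have : (j : ℝ) + 1 ≤ j₂ := by exact_mod_cast hj.2
          have : ((j : ℝ) + 1) * g ≤ j₂ * g := mul_le_mul_of_nonneg_right this hg'.le
          have : (0:ℝ) < 2 ^ (i - 1) := by positivity
          linarith
        exact_mod_cast h1
    have e9 := sum_le_card_nsmul _ _ _ e8
    rw [Nat.card_Ico, nsmul_eq_mul, Nat.cast_sub e5] at e9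
    refine e9.trans ?_
    have e10 : ((j₂ : ℝ) - j₁) * g ≤ (1 + 2 * δ) * H := by nlinarith
    have e11 : 0 ≤ (1 + δ) / ((i - 1) * Real.log 2) := by
      apply div_nonneg (by linarith) hi1.le
    calc ((j₂ : ℝ) - j₁) * ((1 + δ) * ((g : ℝ) / ((i - 1) * Real.log 2)))
        = (((j₂ : ℝ) - j₁) * g) * ((1 + δ) / ((i - 1) * Real.log 2)) := by ring
      _ ≤ ((1 + 2 * δ) * H) * ((1 + δ) / ((i - 1) * Real.log 2)) :=
          mul_le_mul_of_nonneg_right e10 e11
      _ = _ := by ring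
  have hN0 : 0 ≤ N := sum_nonneg fun n _ => hc n
  rw [abs_le]
  constructor
  · have h1 : (1 - δ) * ((1 - 2 * δ) * H / ((i + 3) * Real.log 2)) * (i * Real.log 2) ≤
        N * Real.log x := mul_le_mul hlow hlogx1 (by positivity) hN0
    have h2 : (1 - δ) * ((1 - 2 * δ) * H / ((i + 3) * Real.log 2)) * (i * Real.log 2) =
        (1 - δ) * (1 - 2 * δ) * (i / (i + 3)) * H := by
      field_simp
    rw [h2] at h1
    have h3 : (1 - δ) ≤ (i : ℝ) / (i + 3) := by
      rw [le_div_iff₀ (by positivity)]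
      nlinarith
    have h4 : (1 - δ) * (1 - 2 * δ) * (1 - δ) ≤ N * Real.log x / H := by
      rw [le_div_iff₀ hH0]
      refine le_trans ?_ h1
      apply mul_le_mul_of_nonneg_right _ hH0.le
      apply mul_le_mul_of_nonneg_left h3
      apply mul_nonneg <;> linarith
    have h5 : 0 ≤ δ ^ 2 * (1 / 4 - δ) := mul_nonneg (sq_nonneg _) (by linarith)
    have h6 : 0 ≤ δ ^ 2 := sq_nonneg _
    have h7 : (1 - δ) * (1 - 2 * δ) * (1 - δ) = 1 - 4 * δ + 5 * δ ^ 2 - 2 * δ ^ 3 := by ring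
    rw [h7] at h4
    have h8 : δ ^ 3 = δ ^ 2 * δ := by ring
    nlinarith
  · have h1 : N * Real.log x ≤ (1 + δ) * ((1 + 2 * δ) * H / ((i - 1) * Real.log 2)) *
        ((i + 1) * Real.log 2) := mul_le_mul hupp hlogx2 hlogx0.le (by positivity)
    have h2 : (1 + δ) * ((1 + 2 * δ) * H / ((i - 1) * Real.log 2)) * ((i + 1) * Real.log 2) =
        (1 + δ) * (1 + 2 * δ) * ((i + 1) / (i - 1)) * H := by
      have : ((i : ℝ) - 1) ≠ 0 := by linarith
      field_simp
    rw [h2] at h1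
    have h3 : ((i : ℝ) + 1) / (i - 1) ≤ 1 + δ := by
      rw [div_le_iff₀ (by linarith)]
      nlinarith
    have h4 : N * Real.log x / H ≤ (1 + δ) * (1 + 2 * δ) * (1 + δ) := by
      rw [div_le_iff₀ hH0]
      refine h1.trans ?_
      apply mul_le_mul_of_nonneg_right _ hH0.le
      apply mul_le_mul_of_nonneg_left h3 (by positivity)
    nlinarith [mul_pos hδ hδ, mul_pos (mul_pos hδ hδ) hδ]

lemma FF_facts {m : ℕ} (hm : 0 < m) {ε : ℝ} (hε : 0 < ε) (C : ℝ) :
    ∀ᶠ i : ℕ in atTop, C * i ≤ FF m ε i ∧ FF m ε i ≤ 2 ^ (i - 1) ∧ 1 ≤ (i : ℝ) * Real.log 2 := by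
  have hl2 : 1 / 2 ≤ Real.log 2 := by
    have := Real.log_two_gt_d9
    linarith
  have hl2' : Real.log 2 ≤ 1 := by
    have := Real.log_two_lt_d9
    linarith
  set C' : ℝ := max C 1 with hC'
  have hC1 : 1 ≤ C' := le_max_right _ _
  set a : ℝ := (1 + ε) * (m + 1) with ha
  have ha0 : 0 ≤ a := by positivity
  set N : ℕ := ⌈a⌉₊ with hN
  have h1 := tendsto_pow_const_div_const_pow_of_one_lt (m + 1) (show (1:ℝ) < 2 by norm_num)
  have h2 := tendsto_pow_const_div_const_pow_of_one_lt N (show (1:ℝ) < 2 by norm_num)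
  filter_upwards [h1.eventually_le_const (show (0:ℝ) < 1 / C' ^ (m + 1) by positivity),
    h2.eventually_le_const (show (0:ℝ) < 1 / 4 by norm_num), eventually_ge_atTop 2] with i h3 h4 h5
  have hi2 : (2:ℝ) ≤ i := by exact_mod_cast h5
  have hu : 1 ≤ (i : ℝ) * Real.log 2 := by nlinarith
  have hu2 : (i : ℝ) * Real.log 2 ≤ i := by nlinarith
  have hF0 : 0 ≤ FF m ε i := by
    unfold FF
    positivity
  have hFp := FF_pow m ε i
  rw [← ha] at hFp
  refine ⟨?_, ?_, hu⟩
  · rw [div_le_iff₀ (by positivity)] at h3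
    have h6 : (C' * i) ^ (m + 1) ≤ FF m ε i ^ (m + 1) := by
      rw [hFp, mul_pow]
      have h7 : C' ^ (m + 1) * (i:ℝ) ^ (m + 1) ≤ 2 ^ i := by
        have := mul_le_mul_of_nonneg_left h3 (show 0 ≤ C' ^ (m + 1) by positivity)
        refine this.trans (le_of_eq ?_)
        field_simp
      have h8 : 1 ≤ ((i : ℝ) * Real.log 2) ^ a := Real.one_le_rpow hu ha0
      have h9 : (0:ℝ) < 2 ^ i := by positivity
      nlinarith
    have h7 := le_of_pow_le_pow_left₀ (by omega) hF0 h6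
    have h8 : C * i ≤ C' * i := mul_le_mul_of_nonneg_right (le_max_left _ _) (by linarith)
    linarith
  · rw [div_le_iff₀ (by positivity)] at h4
    apply le_of_pow_le_pow_left₀ (n := m + 1) (by omega) (by positivity)
    rw [hFp]
    have h6 : ((i : ℝ) * Real.log 2) ^ a ≤ (i:ℝ) ^ N := by
      calc ((i : ℝ) * Real.log 2) ^ a ≤ (i:ℝ) ^ a := Real.rpow_le_rpow (by linarith) hu2 ha0
        _ ≤ (i:ℝ) ^ (N:ℝ) := Real.rpow_le_rpow_of_exponent_le (by linarith) (Nat.le_ceil a)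
        _ = _ := Real.rpow_natCast _ _
    have h7 : ((2:ℝ) ^ (i - 1)) ^ 2 ≤ ((2:ℝ) ^ (i - 1)) ^ (m + 1) :=
      pow_le_pow_right₀ (one_le_pow₀ (by norm_num)) (by omega)
    refine le_trans ?_ h7
    have h8 : (2:ℝ) ^ i = 2 * 2 ^ (i - 1) := by
      rw [← pow_succ']
      congr 1
      omega
    have h9 : (0:ℝ) < 2 ^ (i - 1) := by positivity
    calc (2:ℝ) ^ i * ((i : ℝ) * Real.log 2) ^ a ≤ 2 ^ i * (1 / 4 * 2 ^ i) := by
          apply mul_le_mul_of_nonneg_left (h6.trans h4) (by positivity)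
      _ = _ := by
          rw [h8]
          ring

/-- the asymptotic formula in short intervals -/
theorem asymp {Ω : Type*} [MeasurableSpace Ω] {P : Measure Ω} [IsProbabilityMeasure P]
    {κ : ℕ → ℕ} {E : ℕ → Set Ω} (hM : Model P κ E) {m : ℕ} (hm : 0 < m)
    (hκ : ∀ᶠ n : ℕ in atTop, 2 * m ≤ κ n) {ε : ℝ} (hε : 0 < ε) :
    ∀ᵐ ω ∂P, ∀ η : ℝ, 0 < η → ∀ᶠ x : ℝ in atTop, ∀ H : ℝ,
      x ^ ((1:ℝ) / (m + 1)) * Real.log x ^ (1 + ε) ≤ H → H ≤ x →
      |cnt E (Ioc ⌊x⌋₊ ⌊x + H⌋₊) ω * Real.log x / H - 1| ≤ η := by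
  have hl2 : 1 / 2 ≤ Real.log 2 := by
    have := Real.log_two_gt_d9
    linarith
  have hl2' : Real.log 2 ≤ 1 := by
    have := Real.log_two_lt_d9
    linarith
  have hm' : (0:ℝ) < m := by exact_mod_cast hm
  -- for fixed δ almost surely all large scales are good
  have hscale : ∀ δ : ℝ, 0 < δ → δ ≤ 1 / 4 → ∀ᵐ ω ∂P, ∀ᶠ i : ℕ in atTop,
      ω ∈ good E (gg m ε δ i) δ i := by
    intro δ hδ hδ1
    obtain ⟨n₀, hn₀⟩ := eventually_atTop.1 hκ
    set A : ℝ := (32 / δ) * (Real.exp 2 * (2 * m) * 4 / δ ^ 3) ^ m * (Real.log 2) ^ (-(1 + ε)) with hA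
    have hA0 : 0 ≤ A := by positivity
    have hev : ∀ᶠ i : ℕ in atTop, P (good E (gg m ε δ i) δ i)ᶜ ≤
        ENNReal.ofReal (A * (1 / (i:ℝ) ^ (1 + ε))) := by
      filter_upwards [FF_facts hm hε ((8 * m + 2) / δ), eventually_ge_atTop (n₀ + 3)] with i h1 h2
      obtain ⟨h3, h4, h5⟩ := h1
      have hi3 : (3:ℝ) ≤ i := by exact_mod_cast (by omega : 3 ≤ i)
      set F : ℝ := FF m ε i with hF
      set g : ℕ := gg m ε δ i with hg
      have h6 : (8 * m + 2) * (i:ℝ) ≤ δ * F := by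
        have := mul_le_mul_of_nonneg_left h3 hδ.le
        refine le_trans (le_of_eq ?_) this
        field_simp
      have h7 : 2 ≤ δ * F := by nlinarith
      have hgF : δ * F / 2 ≤ g := by
        have := Nat.lt_floor_add_one (δ * F)
        have h8 : (⌊δ * F⌋₊ : ℝ) = (g : ℝ) := rfl
        rw [h8] at this
        linarith
      have hF0 : 0 < F := by
        by_contra h
        have : δ * F ≤ 0 := mul_nonpos_of_nonneg_of_nonpos hδ.le (not_lt.1 h)
        linarith
      have hg0 : 0 < g := by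
        have : (0:ℝ) < g := by linarith
        exact_mod_cast this
      have hg' : (0:ℝ) < g := by exact_mod_cast hg0
      have h9 : ((i:ℝ) + 3) * Real.log 2 ≤ 2 * (i * Real.log 2) := by nlinarith
      refine (good_prob hM hm (by omega) hg0 (fun n hn => hn₀ n ?_) ?_ hδ (by linarith)).trans ?_
      · have : i - 1 < 2 ^ (i - 1) := Nat.lt_two_pow_self
        omega
      · have : 2 * (m:ℝ) * ((i + 3) * Real.log 2) ≤ 2 * m * (2 * i) := by
          apply mul_le_mul_of_nonneg_left _ (by positivity)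
          nlinarith
        nlinarith
      · apply ENNReal.ofReal_le_ofReal
        set u : ℝ := i * Real.log 2 with hu
        have hu0 : 0 < u := by linarith
        have hFp : F ^ (m + 1) = 2 ^ i * u ^ ((1 + ε) * (m + 1)) := FF_pow m ε i
        have e1 : (2:ℝ) ^ (i + 3) / g ≤ 8 * 2 ^ i * (2 / (δ * F)) := by
          rw [pow_add, div_le_iff₀ hg']
          have : (2 / (δ * F)) * (δ * F / 2) ≤ (2 / (δ * F)) * g :=
            mul_le_mul_of_nonneg_left hgF (by positivity)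
          have e : (2 / (δ * F)) * (δ * F / 2) = 1 := by field_simp
          rw [e] at this
          have h0 : (0:ℝ) ≤ 8 * 2 ^ i := by positivity
          nlinarith
        have e2 : Real.exp 2 * (2 * m) * ((i + 3) * Real.log 2) / (δ ^ 2 * g) ≤
            (Real.exp 2 * (2 * m) * 4 / δ ^ 3) * (u / F) := by
          have e3 : Real.exp 2 * (2 * m) * ((i + 3) * Real.log 2) / (δ ^ 2 * g) ≤
              Real.exp 2 * (2 * m) * (2 * u) / (δ ^ 2 * (δ * F / 2)) := by
            apply div_le_div₀ (by positivity) _ (by positivity) _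
            · exact mul_le_mul_of_nonneg_left h9 (by positivity)
            · exact mul_le_mul_of_nonneg_left hgF (by positivity)
          refine e3.trans (le_of_eq ?_)
          field_simp
          ring
        have e4 : (Real.exp 2 * (2 * m) * ((i + 3) * Real.log 2) / (δ ^ 2 * g)) ^ m ≤
            (Real.exp 2 * (2 * m) * 4 / δ ^ 3) ^ m * (u ^ m / F ^ m) := by
          rw [← div_pow, ← mul_pow]
          exact pow_le_pow_left₀ (by positivity) e2 m
        have e5 : u ^ m * 2 ^ i / F ^ (m + 1) ≤ u ^ (-(1 + ε)) := by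
          rw [hFp]
          have e6 : u ^ m * 2 ^ i / (2 ^ i * u ^ ((1 + ε) * (m + 1))) = u ^ ((m:ℝ) - (1 + ε) * (m + 1)) := by
            rw [Real.rpow_sub hu0, Real.rpow_natCast]
            field_simp
          rw [e6]
          apply Real.rpow_le_rpow_of_exponent_le h5
          nlinarith
        calc (2:ℝ) ^ (i + 3) / g *
              (2 * (Real.exp 2 * (2 * m) * ((i + 3) * Real.log 2) / (δ ^ 2 * g)) ^ m)
            ≤ (8 * 2 ^ i * (2 / (δ * F))) *
              (2 * ((Real.exp 2 * (2 * m) * 4 / δ ^ 3) ^ m * (u ^ m / F ^ m))) := by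
              apply mul_le_mul e1 _ (by positivity) (by positivity)
              exact mul_le_mul_of_nonneg_left e4 (by norm_num)
          _ = (32 / δ) * (Real.exp 2 * (2 * m) * 4 / δ ^ 3) ^ m * (u ^ m * 2 ^ i / F ^ (m + 1)) := by
              rw [pow_succ]
              field_simp
              ring
          _ ≤ (32 / δ) * (Real.exp 2 * (2 * m) * 4 / δ ^ 3) ^ m * u ^ (-(1 + ε)) :=
              mul_le_mul_of_nonneg_left e5 (by positivity)
          _ = A * (1 / (i:ℝ) ^ (1 + ε)) := by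
              rw [hA, hu, Real.mul_rpow (by linarith) (by linarith), Real.rpow_neg (by linarith : (0:ℝ) ≤ i)]
              ring
    obtain ⟨i₁, hi₁⟩ := eventually_atTop.1 hev
    have hsum : ∑' i, P (if i₁ ≤ i then (good E (gg m ε δ i) δ i)ᶜ else ∅) ≠ ⊤ := by
      have h1 : Summable (fun i : ℕ => A * (1 / (i:ℝ) ^ (1 + ε))) :=
        (Real.summable_one_div_nat_rpow.2 (by linarith)).mul_left _
      refine ne_top_of_le_ne_top h1.tsum_ofReal_ne_top (ENNReal.tsum_le_tsum fun i => ?_)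
      split_ifs with h
      · exact hi₁ i h
      · simp
    filter_upwards [ae_eventually_notMem hsum] with ω hω
    filter_upwards [hω, eventually_ge_atTop i₁] with i h1 h2
    rw [if_pos h2] at h1
    simpa using h1
  have hall : ∀ᵐ ω ∂P, ∀ r : ℕ, ∀ᶠ i : ℕ in atTop,
      ω ∈ good E (gg m ε (1 / ((r:ℝ) + 4)) i) (1 / ((r:ℝ) + 4)) i := by
    rw [ae_all_iff]
    intro r
    apply hscale _ (by positivity)
    apply one_div_le_one_div_of_le (by norm_num)
    have : (0:ℝ) ≤ r := Nat.cast_nonneg r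
    linarith
  filter_upwards [hall] with ω hω η hη
  obtain ⟨r, hr⟩ := exists_nat_ge (10 / η)
  set δ : ℝ := 1 / ((r:ℝ) + 4) with hδd
  have hr0 : (0:ℝ) ≤ r := Nat.cast_nonneg r
  have hδ : 0 < δ := by positivity
  have hδ1 : δ ≤ 1 / 4 := one_div_le_one_div_of_le (by norm_num) (by linarith)
  have hδη : 10 * δ ≤ η := by
    rw [hδd, mul_one_div, div_le_iff₀ (by positivity)]
    rw [div_le_iff₀ hη] at hr
    nlinarith
  have hev : ∀ᶠ i : ℕ in atTop, ω ∈ good E (gg m ε δ i) δ i ∧ 3 / δ ≤ i ∧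
      (1 / δ) * i ≤ FF m ε i ∧ FF m ε i ≤ 2 ^ (i - 1) ∧ 1 ≤ (i : ℝ) * Real.log 2 := by
    filter_upwards [hω r, tendsto_natCast_atTop_atTop.eventually_ge_atTop (3 / δ),
      FF_facts hm hε (1 / δ)] with i h1 h2 h3
    exact ⟨h1, h2, h3⟩
  obtain ⟨i₂, hi₂⟩ := eventually_atTop.1 hev
  filter_upwards [eventually_ge_atTop ((2:ℝ) ^ (i₂ + 1))] with x hx H hH1 hH2
  have hx0 : 0 < x := lt_of_lt_of_le (by positivity) hx
  have hfl : 2 ^ (i₂ + 1) ≤ ⌊x⌋₊ := by
    apply Nat.le_floor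
    push_cast
    exact hx
  set i : ℕ := Nat.log 2 ⌊x⌋₊ with hi
  have hfl0 : ⌊x⌋₊ ≠ 0 := by
    have : 0 < 2 ^ (i₂ + 1) := by positivity
    omega
  have hii : i₂ + 1 ≤ i := Nat.le_log_of_pow_le (by norm_num) hfl
  have hx1 : (2:ℝ) ^ i ≤ x := by
    have h1 : 2 ^ i ≤ ⌊x⌋₊ := Nat.pow_log_le_self 2 hfl0
    have h2 : ((2:ℝ) ^ i) ≤ (⌊x⌋₊ : ℝ) := by exact_mod_cast h1
    exact h2.trans (Nat.floor_le hx0.le)
  have hx2 : x < 2 ^ (i + 1) := by
    have h1 : ⌊x⌋₊ < 2 ^ (i + 1) := Nat.lt_pow_succ_log_self (by norm_num) _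
    rw [Nat.floor_lt hx0.le] at h1
    push_cast at h1
    exact h1
  obtain ⟨g1, g2, g3, g4, g5⟩ := hi₂ i (by omega)
  have hi0 : (1:ℝ) ≤ i := by exact_mod_cast (by omega : 1 ≤ i)
  have hδF : 1 ≤ δ * FF m ε i := by
    have := mul_le_mul_of_nonneg_left g3 hδ.le
    have e : δ * (1 / δ * i) = i := by field_simp
    rw [e] at this
    linarith
  have hF0 : 0 ≤ FF m ε i := by
    unfold FF
    positivity
  have hg0 : 0 < gg m ε δ i := Nat.floor_pos.2 hδF
  have hgle : (gg m ε δ i : ℝ) ≤ δ * FF m ε i := Nat.floor_le (by positivity)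
  refine (det_count (c := fun n => (E n).indicator (fun _ => (1:ℝ)) ω)
    (fun n => Set.indicator_nonneg (fun _ _ => zero_le_one) _) hg0 ?_ hδ hδ1 g2
    (fun j hj1 hj2 => g1 j hj1 hj2) hx1 hx2 ?_ hH2).trans hδη
  · have h1 : (gg m ε δ i : ℝ) ≤ 2 ^ (i - 1) := by nlinarith
    exact_mod_cast h1
  · refine hgle.trans (mul_le_mul_of_nonneg_left (le_trans ?_ hH1) hδ.le)
    unfold FF
    have e1 : (2:ℝ) ^ ((i:ℝ) / (m + 1)) ≤ x ^ ((1:ℝ) / (m + 1)) := by
      have : (2:ℝ) ^ ((i:ℝ) / (m + 1)) = ((2:ℝ) ^ i) ^ ((1:ℝ) / (m + 1)) := by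
        rw [← Real.rpow_natCast, ← Real.rpow_mul (by norm_num)]
        congr 1
        field_simp
      rw [this]
      exact Real.rpow_le_rpow (by positivity) hx1 (by positivity)
    have e2 : (i:ℝ) * Real.log 2 ≤ Real.log x := by
      rw [← Real.log_pow]
      exact Real.log_le_log (by positivity) hx1
    have e3 : ((i:ℝ) * Real.log 2) ^ (1 + ε) ≤ Real.log x ^ (1 + ε) :=
      Real.rpow_le_rpow (by linarith) e2 (by linarith)
    exact mul_le_mul e1 e3 (by positivity) (by positivity)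

end Q198.CI
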