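import Pool.Agent.H50.L.CI.Law

/-! # The probability of an empty block is small -/

set_option autoImplicit false

namespace Q198.CI

open Finset MeasureTheory

lemma mom_eq {I : Finset ℕ} {K : ℕ} {p : ℕ → ℝ} {v w : Finset ℕ → ℝ} (hv : IsLaw I K p v)
    (hw : IsLaw I K p w) (μ : ℝ) (j : ℕ) : ∀ T ⊆ I, T.card + j ≤ K →
    ∑ S ∈ Icc T I, v S * ((S.card : ℝ) - μ) ^ j = ∑ S ∈ Icc T I, w S * ((S.card : ℝ) - μ) ^ j := by
  classical
  induction j with
  | zero =>
    intro T hT hTK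
    simp only [pow_zero, mul_one]
    rw [hv.2 T hT hTK, hw.2 T hT hTK]
  | succ j ih =>
    intro T hT hTK
    have key : ∀ u : Finset ℕ → ℝ, ∑ S ∈ Icc T I, u S * ((S.card : ℝ) - μ) ^ (j + 1) =
        ∑ n ∈ I, ∑ S ∈ Icc (insert n T) I, u S * ((S.card : ℝ) - μ) ^ j -
        μ * ∑ S ∈ Icc T I, u S * ((S.card : ℝ) - μ) ^ j := by
      intro u
      have h1 : ∀ n ∈ I, ∑ S ∈ Icc (insert n T) I, u S * ((S.card : ℝ) - μ) ^ j =
          ∑ S ∈ Icc T I, (if n ∈ S then 1 else 0) * (u S * ((S.card : ℝ) - μ) ^ j) := by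
        intro n _
        have e : Icc (insert n T) I = (Icc T I).filter (fun S => n ∈ S) := by
          ext S
          simp only [mem_Icc, mem_filter, insert_subset_iff]
          tauto
        rw [e, sum_filter]
        refine sum_congr rfl fun S _ => ?_
        split_ifs <;> simp
      rw [sum_congr rfl h1, sum_comm, mul_sum, ← sum_sub_distrib]
      refine sum_congr rfl fun S hS => ?_
      rw [← sum_mul]
      have h2 : ∑ n ∈ I, (if n ∈ S then (1:ℝ) else 0) = S.card := by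
        rw [← sum_filter, sum_const, nsmul_eq_mul, mul_one]
        congr 2
        ext n
        rw [mem_filter]
        exact ⟨fun h => h.2, fun h => ⟨(mem_Icc.1 hS).2 h, h⟩⟩
      rw [h2]
      ring
    rw [key v, key w, ih T hT (by omega)]
    congr 1
    refine sum_congr rfl fun n hn => ih _ (insert_subset hn hT) ?_
    have := card_insert_le n T
    omega

lemma exp_mom {I : Finset ℕ} {p : ℕ → ℝ} (hp : ∀ n ∈ I, 0 ≤ p n) (hp1 : ∀ n ∈ I, p n ≤ 1)
    (θ : ℝ) :
    ∑ S ∈ I.powerset, ((∏ n ∈ S, p n) * ∏ n ∈ I \ S, (1 - p n)) * Real.exp (θ * S.card) ≤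
      Real.exp ((∑ n ∈ I, p n) * (Real.exp θ - 1)) := by
  have h1 : ∀ S ∈ I.powerset, ((∏ n ∈ S, p n) * ∏ n ∈ I \ S, (1 - p n)) * Real.exp (θ * S.card) =
      (∏ n ∈ S, p n * Real.exp θ) * ∏ n ∈ I \ S, (1 - p n) := by
    intro S _
    rw [prod_mul_distrib, prod_const, ← Real.exp_nat_mul, mul_comm θ]
    ring
  rw [sum_congr rfl h1, ← prod_add, sum_mul, Real.exp_sum]
  refine prod_le_prod (fun n hn => ?_) fun n hn => ?_
  · have := hp1 n hn
    have := mul_nonneg (hp n hn) (Real.exp_pos θ).le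
    linarith
  · have := Real.add_one_le_exp (p n * (Real.exp θ - 1))
    linarith

lemma exp_mom_centered {I : Finset ℕ} {p : ℕ → ℝ} (hp : ∀ n ∈ I, 0 ≤ p n)
    (hp1 : ∀ n ∈ I, p n ≤ 1) {θ : ℝ} (hθ : |θ| ≤ 1) :
    ∑ S ∈ I.powerset, ((∏ n ∈ S, p n) * ∏ n ∈ I \ S, (1 - p n)) *
      Real.exp (θ * ((S.card : ℝ) - ∑ n ∈ I, p n)) ≤ Real.exp ((∑ n ∈ I, p n) * θ ^ 2) := by
  set μ : ℝ := ∑ n ∈ I, p n with hμ
  have hμ0 : 0 ≤ μ := sum_nonneg hp
  have h1 : ∀ S ∈ I.powerset, ((∏ n ∈ S, p n) * ∏ n ∈ I \ S, (1 - p n)) *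
      Real.exp (θ * ((S.card : ℝ) - μ)) = (((∏ n ∈ S, p n) * ∏ n ∈ I \ S, (1 - p n)) *
      Real.exp (θ * S.card)) * Real.exp (-(θ * μ)) := by
    intro S _
    rw [mul_sub, sub_eq_add_neg, Real.exp_add]
    ring
  rw [sum_congr rfl h1, ← sum_mul]
  refine (mul_le_mul_of_nonneg_right (exp_mom hp hp1 θ) (Real.exp_pos _).le).trans ?_
  rw [← Real.exp_add]
  apply Real.exp_le_exp.2
  have h2 := (abs_le.1 (Real.abs_exp_sub_one_sub_id_le hθ)).2
  rw [← hμ]
  nlinarith

/-- the moment method -/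
theorem fin_upper {I : Finset ℕ} {m : ℕ} (hm : 0 < m) {p : ℕ → ℝ} {v : Finset ℕ → ℝ}
    (hp : ∀ n ∈ I, 0 ≤ p n) (hp1 : ∀ n ∈ I, p n ≤ 1) (hv : IsLaw I (2 * m) p v)
    (hμ : (2 * m : ℝ) ≤ ∑ n ∈ I, p n) :
    v ∅ ≤ 2 * (Real.exp 2 * (2 * m) / ∑ n ∈ I, p n) ^ m := by
  classical
  set μ : ℝ := ∑ n ∈ I, p n with hμd
  have hm' : (0:ℝ) < m := by exact_mod_cast hm
  have hμ0 : 0 < μ := by linarith
  set w : Finset ℕ → ℝ := fun S => (∏ n ∈ S, p n) * ∏ n ∈ I \ S, (1 - p n) with hw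
  have hwl : IsLaw I (2 * m) p w := by
    constructor
    · intro S hS
      exact mul_nonneg (prod_nonneg fun n hn => hp n (hS hn))
        (prod_nonneg fun n hn => by linarith [hp1 n (mem_sdiff.1 hn).1])
    · intro T hT _
      exact prod_moment hT p
  have h1 := mom_eq hv hwl μ (2 * m) ∅ (empty_subset _) (by simp)
  have hI : Icc (∅ : Finset ℕ) I = I.powerset := by
    ext S
    simp
  rw [hI] at h1
  have h2 : v ∅ * μ ^ (2 * m) ≤ ∑ S ∈ I.powerset, v S * ((S.card : ℝ) - μ) ^ (2 * m) := by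
    refine le_trans (le_of_eq ?_) (single_le_sum (f := fun S : Finset ℕ => v S * ((S.card : ℝ) - μ) ^ (2 * m))
      (fun S hS => ?_) (empty_mem_powerset I))
    · simp only [card_empty, Nat.cast_zero, zero_sub]
      rw [(even_two_mul m).neg_pow]
    · exact mul_nonneg (hv.1 S (mem_powerset.1 hS)) ((even_two_mul m).pow_nonneg _)
  set t : ℝ := Real.sqrt (2 * m / μ) with ht
  have ht2 : t ^ 2 = 2 * m / μ := Real.sq_sqrt (by positivity)
  have ht0 : 0 < t := Real.sqrt_pos.2 (by positivity)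
  have ht1 : t ≤ 1 := by
    rw [ht, ← Real.sqrt_one]
    apply Real.sqrt_le_sqrt
    rw [div_le_one hμ0]
    exact hμ
  have h3 : ∀ y : ℝ, y ^ (2 * m) ≤ ((2 * m).factorial : ℝ) / t ^ (2 * m) *
      (Real.exp (t * y) + Real.exp (-t * y)) := by
    intro y
    have h4 := Real.pow_div_factorial_le_exp |t * y| (abs_nonneg _) (2 * m)
    have h5 : |t * y| ^ (2 * m) = t ^ (2 * m) * y ^ (2 * m) := by
      rw [(even_two_mul m).pow_abs, mul_pow]
    rw [h5] at h4
    have hf : (0:ℝ) < ((2 * m).factorial : ℝ) := by exact_mod_cast Nat.factorial_pos _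
    have h6 : Real.exp |t * y| ≤ Real.exp (t * y) + Real.exp (-t * y) := by
      rcases abs_cases (t * y) with h | h
      · rw [h.1]
        linarith [Real.exp_pos (-t * y)]
      · rw [h.1, neg_mul]
        linarith [Real.exp_pos (t * y)]
    have h7 := h4.trans h6
    rw [div_le_iff₀ hf] at h7
    rw [div_mul_eq_mul_div, le_div_iff₀ (by positivity)]
    linarith
  have h8 : ∑ S ∈ I.powerset, w S * ((S.card : ℝ) - μ) ^ (2 * m) ≤
      ((2 * m).factorial : ℝ) / t ^ (2 * m) * (2 * Real.exp (2 * m)) := by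
    have e1 := exp_mom_centered hp hp1 (θ := t) (by rw [abs_of_pos ht0]; exact ht1)
    have e2 := exp_mom_centered hp hp1 (θ := -t) (by rw [abs_neg, abs_of_pos ht0]; exact ht1)
    rw [← hμd] at e1 e2
    have e3 : μ * t ^ 2 = 2 * m := by
      rw [ht2]
      field_simp
    rw [e3] at e1
    rw [neg_sq, e3] at e2
    calc ∑ S ∈ I.powerset, w S * ((S.card : ℝ) - μ) ^ (2 * m)
        ≤ ∑ S ∈ I.powerset, w S * (((2 * m).factorial : ℝ) / t ^ (2 * m) *
          (Real.exp (t * ((S.card : ℝ) - μ)) + Real.exp (-t * ((S.card : ℝ) - μ)))) := by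
          refine sum_le_sum fun S hS => mul_le_mul_of_nonneg_left (h3 _) (hwl.1 S (mem_powerset.1 hS))
      _ = ((2 * m).factorial : ℝ) / t ^ (2 * m) *
          (∑ S ∈ I.powerset, w S * Real.exp (t * ((S.card : ℝ) - μ)) +
          ∑ S ∈ I.powerset, w S * Real.exp (-t * ((S.card : ℝ) - μ))) := by
          rw [← sum_add_distrib, mul_sum]
          refine sum_congr rfl fun S _ => ?_
          ring
      _ ≤ ((2 * m).factorial : ℝ) / t ^ (2 * m) * (2 * Real.exp (2 * m)) := by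
          apply mul_le_mul_of_nonneg_left _ (by positivity)
          linarith
  have h9 : v ∅ * μ ^ (2 * m) ≤ ((2 * m).factorial : ℝ) / t ^ (2 * m) * (2 * Real.exp (2 * m)) :=
    h2.trans (h1.le.trans h8)
  have h10 : ((2 * m).factorial : ℝ) ≤ (2 * m : ℝ) ^ (2 * m) := by
    have := Nat.factorial_le_pow (2 * m)
    exact_mod_cast this
  have h11 : t ^ (2 * m) = (2 * m / μ) ^ m := by rw [pow_mul, ht2]
  rw [← le_div_iff₀ (by positivity)] at h9
  refine h9.trans ?_
  have h12 : Real.exp (2 * m) = Real.exp 2 ^ m := by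
    rw [← Real.exp_nat_mul]
    ring_nf
  rw [h11, h12]
  generalize hD : (2 * m : ℝ) = D at *
  have hD0 : 0 < D := by linarith
  have e1 : μ ^ (2 * m) = μ ^ m * μ ^ m := by rw [two_mul, pow_add]
  have e2 : D ^ (2 * m) = D ^ m * D ^ m := by rw [two_mul, pow_add]
  rw [e1, div_pow, div_pow, mul_pow]
  rw [e2] at h10
  have hμm : 0 < μ ^ m := by positivity
  have hDm : 0 < D ^ m := by positivity
  calc ((2 * m).factorial : ℝ) / (D ^ m / μ ^ m) * (2 * Real.exp 2 ^ m) / (μ ^ m * μ ^ m)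
      ≤ (D ^ m * D ^ m) / (D ^ m / μ ^ m) * (2 * Real.exp 2 ^ m) / (μ ^ m * μ ^ m) := by
        apply div_le_div_of_nonneg_right _ (by positivity)
        apply mul_le_mul_of_nonneg_right _ (by positivity)
        exact div_le_div_of_nonneg_right h10 (by positivity)
    _ = 2 * (Real.exp 2 ^ m * D ^ m / μ ^ m) := by
        field_simp

theorem meas_upper {Ω : Type*} [MeasurableSpace Ω] (P : Measure Ω) [IsProbabilityMeasure P]
    {E : ℕ → Set Ω} (hE : ∀ n, MeasurableSet (E n)) {I : Finset ℕ} {m : ℕ} (hm : 0 < m)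
    {p : ℕ → ℝ} (hp : ∀ n ∈ I, 0 ≤ p n) (hp1 : ∀ n ∈ I, p n ≤ 1)
    (hT : ∀ T ⊆ I, T.card ≤ 2 * m → P (⋂ n ∈ T, E n) = ENNReal.ofReal (∏ n ∈ T, p n))
    (hμ : (2 * m : ℝ) ≤ ∑ n ∈ I, p n) :
    P (⋂ n ∈ I, (E n)ᶜ) ≤ ENNReal.ofReal (2 * (Real.exp 2 * (2 * m) / ∑ n ∈ I, p n) ^ m) := by
  classical
  set D : Finset ℕ → Set Ω := fun S => ⋂ n ∈ I, {ω | ω ∈ E n ↔ n ∈ S} with hD
  have hDm : ∀ S, MeasurableSet (D S) := by
    intro S
    refine Finset.measurableSet_biInter _ fun n _ => ?_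
    by_cases h : n ∈ S
    · have : {ω | ω ∈ E n ↔ n ∈ S} = E n := by
        ext ω
        simp [h]
      rw [this]
      exact hE n
    · have : {ω | ω ∈ E n ↔ n ∈ S} = (E n)ᶜ := by
        ext ω
        simp [h]
      rw [this]
      exact (hE n).compl
  have hmemD : ∀ S ω, ω ∈ D S ↔ ∀ n ∈ I, (ω ∈ E n ↔ n ∈ S) := by
    intro S ω
    simp only [hD, Set.mem_iInter, Set.mem_ofPred_eq]
  have hlaw : IsLaw I (2 * m) p (fun S => (P (D S)).toReal) := by
    constructor
    · intro S _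
      exact ENNReal.toReal_nonneg
    · intro T hTI hTc
      have h1 : (⋂ n ∈ T, E n) = ⋃ S ∈ Icc T I, D S := by
        ext ω
        simp only [Set.mem_iInter, Set.mem_iUnion, hmemD]
        constructor
        · intro h
          refine ⟨I.filter (fun n => ω ∈ E n), ?_, ?_⟩
          · rw [mem_Icc]
            refine ⟨fun n hn => mem_filter.2 ⟨hTI hn, h n hn⟩, filter_subset _ _⟩
          · intro n hn
            rw [mem_filter]
            exact ⟨fun h2 => ⟨hn, h2⟩, fun h2 => h2.2⟩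
        · rintro ⟨S, hS, h⟩ n hn
          rw [mem_Icc] at hS
          exact (h n (hTI hn)).2 (hS.1 hn)
      have h2 : P (⋂ n ∈ T, E n) = ∑ S ∈ Icc T I, P (D S) := by
        rw [h1, measure_biUnion_finset]
        · intro S hS S' hS' hne
          rw [Function.onFun, Set.disjoint_left]
          intro ω h3 h4
          rw [hmemD] at h3 h4
          apply hne
          ext n
          have hSI := (mem_Icc.1 (mem_coe.1 hS)).2
          have hSI' := (mem_Icc.1 (mem_coe.1 hS')).2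
          constructor
          · intro h5
            exact (h4 n (hSI h5)).1 ((h3 n (hSI h5)).2 h5)
          · intro h5
            exact (h3 n (hSI' h5)).1 ((h4 n (hSI' h5)).2 h5)
        · intro S _
          exact hDm S
      rw [← ENNReal.toReal_sum (fun S _ => measure_ne_top P _), ← h2, hT T hTI hTc,
        ENNReal.toReal_ofReal (prod_nonneg fun n hn => hp n (hTI hn))]
  have h3 := fin_upper hm hp hp1 hlaw hμ
  have h4 : (⋂ n ∈ I, (E n)ᶜ) = D ∅ := by
    ext ω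
    simp only [Set.mem_iInter, Set.mem_compl_iff, hmemD, notMem_empty, iff_false]
  rw [h4, ← ENNReal.ofReal_toReal (measure_ne_top P (D ∅))]
  exact ENNReal.ofReal_le_ofReal h3

end Q198.CI
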