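import Pool.Agent.H50.L.CI.Dyad
import Pool.Agent.H26.OS.L.Up

/-! # Independence of logarithmic order is the threshold for Cramér's bound -/

set_option autoImplicit false

namespace Q198.CI

open Finset MeasureTheory Filter Topology

/-- Cramér's random model with limited independence: `E n` is the event that `n` belongs to the
random set; events at the places of a finite set `T` of integers `≥ 3` with at most `κ n` elements,
for all `n ∈ T`, are as in Cramér's model. -/
structure Model {Ω : Type*} [MeasurableSpace Ω] (P : Measure Ω) (κ : ℕ → ℕ) (E : ℕ → Set Ω) :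
    Prop where
  meas : ∀ n, MeasurableSet (E n)
  indep : ∀ T : Finset ℕ, (∀ n ∈ T, 3 ≤ n ∧ T.card ≤ κ n) →
    P (⋂ n ∈ T, E n) = ENNReal.ofReal (∏ n ∈ T, 1 / Real.log n)

lemma interval_empty {Ω : Type*} [MeasurableSpace Ω] {P : Measure Ω} [IsProbabilityMeasure P]
    {κ : ℕ → ℕ} {E : ℕ → Set Ω} (hM : Model P κ E) {m : ℕ} (hm : 0 < m) {a b : ℕ} (ha : 2 ≤ a)
    (hab : a < b) (hκ : ∀ n ∈ Ioc a b, 2 * m ≤ κ n)
    (hl : 2 * m * Real.log b ≤ (b : ℝ) - a) :
    P (⋂ n ∈ Ioc a b, (E n)ᶜ) ≤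
      ENNReal.ofReal (2 * (Real.exp 2 * (2 * m) * Real.log b / ((b : ℝ) - a)) ^ m) := by
  have hb : 1 < Real.log b := one_lt_log (by omega)
  have hba : (0:ℝ) < (b : ℝ) - a := by
    have : (a : ℝ) < b := by exact_mod_cast hab
    linarith
  have h1 : ∀ n ∈ Ioc a b, 1 / Real.log b ≤ 1 / Real.log n := by
    intro n hn
    rw [mem_Ioc] at hn
    have h2 : 1 < Real.log n := one_lt_log (by omega)
    apply one_div_le_one_div_of_le (by linarith)
    apply Real.log_le_log
    · exact_mod_cast (by omega : 0 < n)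
    · exact_mod_cast hn.2
  have h2 : ((b : ℝ) - a) / Real.log b ≤ ∑ n ∈ Ioc a b, 1 / Real.log n := by
    have := card_nsmul_le_sum (Ioc a b) (fun n : ℕ => 1 / Real.log n) _ h1
    rw [Nat.card_Ioc, nsmul_eq_mul, Nat.cast_sub hab.le] at this
    rw [div_eq_mul_one_div]
    exact this
  have hm' : (0:ℝ) < m := by exact_mod_cast hm
  have h3 : (2 * m : ℝ) ≤ ((b : ℝ) - a) / Real.log b := by
    rw [le_div_iff₀ (by linarith)]
    exact hl
  have h4 := meas_upper P hM.meas (I := Ioc a b) hm (p := fun n => 1 / Real.log n)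
    (fun n hn => by
      rw [mem_Ioc] at hn
      have : 1 < Real.log n := one_lt_log (by omega)
      positivity)
    (fun n hn => by
      rw [mem_Ioc] at hn
      have : 1 < Real.log n := one_lt_log (by omega)
      rw [div_le_one (by linarith)]
      linarith)
    (fun T hT hTc => hM.indep T fun n hn => by
      have h5 := hT hn
      have h6 := hκ n h5
      rw [mem_Ioc] at h5
      constructor <;> omega) (h3.trans h2)
  refine h4.trans (ENNReal.ofReal_le_ofReal ?_)
  apply mul_le_mul_of_nonneg_left _ (by norm_num)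
  have h7 : 0 < ((b : ℝ) - a) / Real.log b := by positivity
  apply pow_le_pow_left₀ (by positivity)
  calc Real.exp 2 * (2 * m) / ∑ n ∈ Ioc a b, 1 / Real.log n
      ≤ Real.exp 2 * (2 * m) / (((b : ℝ) - a) / Real.log b) :=
        div_le_div_of_nonneg_left (by positivity) h7 h2
    _ = _ := by
        field_simp

/-- independence of order `c log n` suffices -/
theorem suffices_log {c : ℝ} (hc : 0 < c) : ∃ C : ℝ, ∀ (Ω : Type) (_ : MeasurableSpace Ω)
    (P : Measure Ω) (_ : IsProbabilityMeasure P) (κ : ℕ → ℕ) (E : ℕ → Set Ω), Model P κ E →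
    (∀ᶠ n : ℕ in atTop, c * Real.log n ≤ κ n) →
    ∀ᵐ ω ∂P, ∀ᶠ x : ℕ in atTop, ∃ n : ℕ, x < n ∧ (n : ℝ) ≤ x + C * Real.log x ^ 2 ∧ ω ∈ E n := by
  set d : ℝ := min c 1 with hd
  have hd0 : 0 < d := lt_min hc one_pos
  have hdc : d ≤ c := min_le_left _ _
  have hd1 : d ≤ 1 := min_le_right _ _
  set C : ℝ := 4 * Real.exp 2 * Real.exp (8 / d) with hC
  refine ⟨C, fun Ω mΩ P hP κ E hM hκ => ?_⟩
  have hC4 : 4 ≤ C := by
    have h1 : 1 ≤ Real.exp 2 := Real.one_le_exp (by norm_num)
    have h2 : 1 ≤ Real.exp (8 / d) := Real.one_le_exp (by positivity)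
    rw [hC]
    nlinarith
  -- large x
  have hev : ∀ᶠ x : ℕ in atTop, (∀ n : ℕ, x ≤ n → c * Real.log n ≤ κ n) ∧ 2 ≤ x ∧
      4 / d ≤ Real.log x ∧ C * Real.log x ^ 2 + 1 ≤ x := by
    have e1 : ∀ᶠ x : ℕ in atTop, ∀ n : ℕ, x ≤ n → c * Real.log n ≤ κ n := by
      rw [eventually_atTop] at hκ ⊢
      obtain ⟨N, hN⟩ := hκ
      exact ⟨N, fun x hx n hn => hN n (hx.trans hn)⟩
    have e2 : Tendsto (fun x : ℕ => Real.log x) atTop atTop :=
      Real.tendsto_log_atTop.comp tendsto_natCast_atTop_atTop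
    have e3 : ∀ᶠ x : ℝ in atTop, C * Real.log x ^ 2 + 1 ≤ x := by
      have h1 : (fun x : ℝ => Real.log x ^ 2) =o[atTop] (fun x : ℝ => x) := by
        have := isLittleO_log_rpow_rpow_atTop (s := 1) 2 one_pos
        simpa using this
      have h2 := h1.def (c := 1 / (2 * C)) (by positivity)
      filter_upwards [h2, eventually_ge_atTop 2] with x h3 h4
      rw [Real.norm_of_nonneg (by positivity), Real.norm_of_nonneg (by linarith)] at h3
      have h5 : C * Real.log x ^ 2 ≤ C * (1 / (2 * C) * x) :=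
        mul_le_mul_of_nonneg_left h3 (by linarith)
      have h6 : C * (1 / (2 * C) * x) = x / 2 := by
        field_simp
      linarith
    filter_upwards [e1, eventually_ge_atTop 2, e2.eventually_ge_atTop (4 / d),
      tendsto_natCast_atTop_atTop.eventually e3] with x h1 h2 h3 h4
    exact ⟨h1, h2, h3, h4⟩
  obtain ⟨x₀, hx₀⟩ := eventually_atTop.1 hev
  -- the bad events
  set bad : ℕ → Set Ω := fun x => if x₀ ≤ x then
    (⋂ n ∈ Ioc x (x + ⌊C * Real.log x ^ 2⌋₊), (E n)ᶜ) else ∅ with hbad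
  have hbound : ∀ x, P (bad x) ≤ ENNReal.ofReal (2 * Real.exp (8 / d) * (1 / (x : ℝ) ^ 2)) := by
    intro x
    rw [hbad]
    simp only
    split_ifs with hx
    · obtain ⟨h1, h2, h3, h4⟩ := hx₀ x hx
      set H : ℕ := ⌊C * Real.log x ^ 2⌋₊ with hH
      have hlog4 : 4 ≤ Real.log x := by
        refine le_trans ?_ h3
        rw [le_div_iff₀ hd0]
        linarith
      have hx0 : (0:ℝ) < x := by exact_mod_cast (by omega : 0 < x)
      have hHle : (H : ℝ) ≤ C * Real.log x ^ 2 := Nat.floor_le (by positivity)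
      have hHge : C * Real.log x ^ 2 / 2 ≤ H := by
        have := Nat.lt_floor_add_one (C * Real.log x ^ 2)
        rw [← hH] at this
        nlinarith
      have hH0 : 0 < H := by
        have : (0:ℝ) < H := by nlinarith
        exact_mod_cast this
      set m : ℕ := ⌊d * Real.log x / 2⌋₊ with hm
      have hmle : (m : ℝ) ≤ d * Real.log x / 2 := Nat.floor_le (by positivity)
      have hmge : d * Real.log x / 2 - 1 ≤ m := by
        have := Nat.lt_floor_add_one (d * Real.log x / 2)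
        rw [← hm] at this
        linarith
      have hdl : 4 ≤ d * Real.log x := by
        rw [div_le_iff₀ hd0] at h3
        linarith
      have hm0 : 0 < m := by
        have : (0:ℝ) < m := by linarith
        exact_mod_cast this
      have hlogb : Real.log ((x + H : ℕ) : ℝ) ≤ 2 * Real.log x := by
        have h5 : ((x + H : ℕ) : ℝ) ≤ x ^ 2 := by
          push_cast
          have : (2:ℝ) ≤ x := by exact_mod_cast h2
          nlinarith
        have h6 : Real.log ((x + H : ℕ) : ℝ) ≤ Real.log ((x:ℝ) ^ 2) := by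
          apply Real.log_le_log
          · positivity
          · exact h5
        rw [Real.log_pow] at h6
        push_cast at h6 ⊢
        exact h6
      have hba : ((x + H : ℕ) : ℝ) - x = H := by
        push_cast
        ring
      have hmain := interval_empty hM hm0 h2 (show x < x + H by omega) (by
        intro n hn
        rw [mem_Ioc] at hn
        have h5 := h1 n hn.1.le
        have h6 : Real.log x ≤ Real.log n := by
          apply Real.log_le_log hx0
          exact_mod_cast hn.1.le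
        have h7 : ((2 * m : ℕ) : ℝ) ≤ κ n := by
          push_cast
          have h8 : d * Real.log x ≤ c * Real.log n :=
            mul_le_mul hdc h6 (by linarith) hc.le
          linarith
        exact_mod_cast h7) (by
        rw [hba]
        have h5 : (2 * m : ℝ) * Real.log ((x + H : ℕ) : ℝ) ≤ (d * Real.log x) * (2 * Real.log x) := by
          apply mul_le_mul _ hlogb _ (by positivity)
          · linarith
          · apply Real.log_nonneg
            have : (1:ℝ) ≤ ((x + H : ℕ) : ℝ) := by exact_mod_cast (by omega : 1 ≤ x + H)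
            exact this
        nlinarith)
      refine hmain.trans (ENNReal.ofReal_le_ofReal ?_)
      rw [hba, mul_assoc 2 (Real.exp (8 / d)) _]
      apply mul_le_mul_of_nonneg_left _ (by norm_num)
      have h9 : Real.exp 2 * (2 * m) * Real.log ((x + H : ℕ) : ℝ) / H ≤ Real.exp (-(8 / d)) := by
        rw [div_le_iff₀ (by exact_mod_cast hH0)]
        have h10 : Real.exp 2 * (2 * m) * Real.log ((x + H : ℕ) : ℝ) ≤
            Real.exp 2 * (d * Real.log x) * (2 * Real.log x) := by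
          apply mul_le_mul _ hlogb _ (by positivity)
          · apply mul_le_mul_of_nonneg_left _ (Real.exp_pos _).le
            linarith
          · apply Real.log_nonneg
            have : (1:ℝ) ≤ ((x + H : ℕ) : ℝ) := by exact_mod_cast (by omega : 1 ≤ x + H)
            exact this
        refine h10.trans (le_trans ?_ (mul_le_mul_of_nonneg_left hHge (Real.exp_pos _).le))
        have h11 : Real.exp (-(8 / d)) * (C * Real.log x ^ 2 / 2) =
            2 * Real.exp 2 * Real.log x ^ 2 := by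
          rw [hC, Real.exp_neg]
          field_simp
          ring
        rw [h11]
        have h12 : d * (Real.exp 2 * Real.log x ^ 2) ≤ 1 * (Real.exp 2 * Real.log x ^ 2) :=
          mul_le_mul_of_nonneg_right hd1 (by positivity)
        nlinarith
      have h13 : 0 ≤ Real.exp 2 * (2 * m) * Real.log ((x + H : ℕ) : ℝ) / H := by
        apply div_nonneg _ (Nat.cast_nonneg _)
        apply mul_nonneg (by positivity)
        apply Real.log_nonneg
        have : (1:ℝ) ≤ ((x + H : ℕ) : ℝ) := by exact_mod_cast (by omega : 1 ≤ x + H)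
        exact this
      refine (pow_le_pow_left₀ h13 h9 m).trans ?_
      rw [← Real.exp_nat_mul]
      have h14 : (m : ℝ) * -(8 / d) ≤ 8 / d + -(4 * Real.log x) := by
        have h15 : (d * Real.log x / 2 - 1) * (8 / d) ≤ m * (8 / d) :=
          mul_le_mul_of_nonneg_right hmge (by positivity)
        have h16 : (d * Real.log x / 2 - 1) * (8 / d) = 4 * Real.log x - 8 / d := by
          field_simp
          ring
        linarith
      refine (Real.exp_le_exp.2 h14).trans ?_
      rw [Real.exp_add]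
      apply mul_le_mul_of_nonneg_left _ (Real.exp_pos _).le
      have h17 : Real.exp (-(4 * Real.log x)) = 1 / (x : ℝ) ^ 4 := by
        rw [Real.exp_neg, one_div, show (4:ℝ) = ((4:ℕ):ℝ) by norm_num, ← Real.log_pow,
          Real.exp_log (by positivity)]
      rw [h17]
      apply one_div_le_one_div_of_le (by positivity)
      apply pow_le_pow_right₀ _ (by norm_num)
      exact_mod_cast (by omega : 1 ≤ x)
    · simp
  have hsum : ∑' x, P (bad x) ≠ ⊤ := by
    have h1 : Summable (fun x : ℕ => 2 * Real.exp (8 / d) * (1 / (x : ℝ) ^ 2)) :=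
      (Real.summable_one_div_nat_pow.2 (by norm_num)).mul_left _
    exact ne_top_of_le_ne_top h1.tsum_ofReal_ne_top (ENNReal.tsum_le_tsum hbound)
  have hbc := ae_eventually_notMem hsum
  filter_upwards [hbc] with ω hω
  filter_upwards [hω, eventually_ge_atTop x₀] with x h1 h2
  rw [hbad] at h1
  simp only [if_pos h2, Set.mem_iInter, Set.mem_compl_iff, not_forall, not_not] at h1
  obtain ⟨n, hn, hnE⟩ := h1
  rw [mem_Ioc] at hn
  refine ⟨n, hn.1, ?_, hnE⟩
  have h3 : (⌊C * Real.log x ^ 2⌋₊ : ℝ) ≤ C * Real.log x ^ 2 := Nat.floor_le (by positivity)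
  have h4 : (n : ℝ) ≤ ((x + ⌊C * Real.log x ^ 2⌋₊ : ℕ) : ℝ) := by exact_mod_cast hn.2
  push_cast at h4
  linarith

lemma sup_scale {κ : ℕ → ℕ} (hκ : Tendsto (fun n : ℕ => (κ n : ℝ) / Real.log n) atTop (𝓝 0))
    {δ : ℝ} (hδ : 0 < δ) : ∀ᶠ i : ℕ in atTop,
    (((Ico (2 ^ i) (2 ^ (i + 1))).sup κ : ℕ) : ℝ) ≤ δ * i := by
  have h1 : ∀ᶠ n : ℕ in atTop, (κ n : ℝ) / Real.log n < δ / 2 := hκ.eventually_lt_const (by positivity)
  obtain ⟨N, hN⟩ := eventually_atTop.1 h1
  filter_upwards [eventually_ge_atTop (N + 2)] with i hi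
  have h2 : (Ico (2 ^ i) (2 ^ (i + 1))).sup κ ≤ ⌊δ * i⌋₊ := by
    apply Finset.sup_le
    intro n hn
    rw [mem_Ico] at hn
    apply Nat.le_floor
    have h3 : i < 2 ^ i := Nat.lt_two_pow_self
    have h4 := hN n (by omega)
    have h5 : 1 < Real.log n := one_lt_log (by omega)
    rw [div_lt_iff₀ (by linarith)] at h4
    have h6 : Real.log n ≤ (i + 1) * Real.log 2 := by
      have h7 : Real.log n ≤ Real.log ((2:ℝ) ^ (i + 1)) := by
        apply Real.log_le_log
        · exact_mod_cast (by omega : 0 < n)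
        · exact_mod_cast hn.2.le
      rw [Real.log_pow] at h7
      push_cast at h7
      exact h7
    have h8 : Real.log 2 ≤ 1 := by
      have := Real.log_two_lt_d9
      linarith
    have h9 : (1:ℝ) ≤ i := by exact_mod_cast (by omega : 1 ≤ i)
    have h10 : ((i:ℝ) + 1) * Real.log 2 ≤ 2 * i := by
      have h0 : 0 < Real.log 2 := Real.log_pos (by norm_num)
      nlinarith
    nlinarith
  have h3 : (((Ico (2 ^ i) (2 ^ (i + 1))).sup κ : ℕ) : ℝ) ≤ (⌊δ * i⌋₊ : ℝ) := by exact_mod_cast h2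
  exact h3.trans (Nat.floor_le (by positivity))

lemma log_bound {D x : ℝ} (hD : 0 < D) (hx : 0 < x) : x * Real.log (D / x) ≤ 2 * Real.sqrt (D * x) := by
  have h1 : 0 < D / x := by positivity
  have h2 : Real.log (D / x) = 2 * Real.log (Real.sqrt (D / x)) := by
    rw [Real.log_sqrt h1.le]
    ring
  have h3 : Real.log (Real.sqrt (D / x)) ≤ Real.sqrt (D / x) := by
    have := Real.log_le_sub_one_of_pos (Real.sqrt_pos.2 h1)
    linarith
  have h4 : x * Real.sqrt (D / x) = Real.sqrt (D * x) := by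
    rw [Real.sqrt_div' _ hx.le, Real.sqrt_mul hD.le]
    have h5 : Real.sqrt x * Real.sqrt x = x := Real.mul_self_sqrt hx.le
    have h6 : 0 < Real.sqrt x := Real.sqrt_pos.2 hx
    rw [mul_div_assoc', div_eq_iff h6.ne']
    calc x * Real.sqrt D = (Real.sqrt x * Real.sqrt x) * Real.sqrt D := by rw [h5]
      _ = _ := by ring
  rw [h2]
  calc x * (2 * Real.log (Real.sqrt (D / x))) ≤ x * (2 * Real.sqrt (D / x)) := by
        apply mul_le_mul_of_nonneg_left _ hx.le
        linarith
    _ = 2 * (x * Real.sqrt (D / x)) := by ring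
    _ = _ := by rw [h4]

/-- the block model -/
theorem block_model (κ : ℕ → ℕ) :
    ∃ (Ω : Type) (_ : MeasurableSpace Ω) (P : Measure Ω) (_ : IsProbabilityMeasure P)
      (E : ℕ → Set Ω), Model P κ E ∧
      ∀ᵐ ω ∂P, ∀ K : ℝ, ∃ δ : ℝ, 0 < δ ∧ ∀ᶠ i : ℕ in atTop,
        (((Ico (2 ^ i) (2 ^ (i + 1))).sup κ : ℕ) : ℝ) ≤ δ * i → ∀ X : ℕ, 2 ^ (i + 1) ≤ X →
        X < 2 ^ (i + 2) → ∃ x : ℕ, (x : ℝ) + K * Real.log X ^ 2 ≤ X ∧
        ∀ n : ℕ, x < n → (n : ℝ) ≤ x + K * Real.log X ^ 2 → ω ∉ E n := by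
  classical
  set L : ℕ → ℕ := fun i => (Ico (2 ^ i) (2 ^ (i + 1))).sup κ with hL
  set k : ℕ → ℕ := fun i => 2 * (L i + 1) with hk
  set h : ℕ → ℕ := fun i => min i (Nat.log 2 (i ^ 3 / k i)) with hh
  have hk0 : ∀ i, 0 < k i := fun i => by simp only [hk]; omega
  have hH : ∀ᶠ i : ℕ in atTop, 6 ≤ i ∧ (k i ≤ i → h i ≤ i ∧
      (2:ℝ) ^ h i * k i ≤ (i:ℝ) ^ 3 ∧ (i:ℝ) ^ 3 < 2 * (2:ℝ) ^ h i * k i) := by
    have h1 : ∀ᶠ i : ℕ in atTop, i ^ 3 ≤ 2 ^ i := by
      have h2 := tendsto_pow_const_div_const_pow_of_one_lt 3 (show (1:ℝ) < 2 by norm_num)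
      filter_upwards [h2.eventually_le_const (show (0:ℝ) < 1 by norm_num)] with i h3
      rw [div_le_one (by positivity)] at h3
      exact_mod_cast h3
    filter_upwards [h1, eventually_ge_atTop 6] with i h2 h4
    refine ⟨h4, fun hki => ?_⟩
    have h5 : 0 < i ^ 3 / k i := by
      apply Nat.div_pos _ (hk0 i)
      calc k i ≤ i := hki
        _ ≤ i ^ 3 := Nat.le_self_pow (by norm_num) i
    have h6 : i ^ 3 / k i ≤ 2 ^ i := (Nat.div_le_self _ _).trans h2
    have h7 : Nat.log 2 (i ^ 3 / k i) ≤ i := by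
      calc Nat.log 2 (i ^ 3 / k i) ≤ Nat.log 2 (2 ^ i) := Nat.log_mono_right h6
        _ = i := Nat.log_pow (by norm_num) i
    have h8 : h i = Nat.log 2 (i ^ 3 / k i) := by
      simp only [hh]
      exact min_eq_right h7
    have h9 : 2 ^ h i ≤ i ^ 3 / k i := by
      rw [h8]
      exact Nat.pow_log_le_self 2 h5.ne'
    have h10 : i ^ 3 / k i < 2 ^ (h i + 1) := by
      rw [h8]
      exact Nat.lt_pow_succ_log_self (by norm_num) _
    refine ⟨min_le_left _ _, ?_, ?_⟩
    · have h11 : 2 ^ h i * k i ≤ i ^ 3 :=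
        (Nat.mul_le_mul_right _ h9).trans (Nat.div_mul_le_self _ _)
      exact_mod_cast h11
    · have h11 : i ^ 3 < k i * (i ^ 3 / k i + 1) := Nat.lt_mul_div_succ _ (hk0 i)
      have h12 : i ^ 3 / k i + 1 ≤ 2 * 2 ^ h i := by
        have h14 : 2 ^ (h i + 1) = 2 * 2 ^ h i := by ring
        rw [h14] at h10
        exact h10
      have h13 : i ^ 3 < 2 * 2 ^ h i * k i := by
        calc i ^ 3 < k i * (i ^ 3 / k i + 1) := h11
          _ ≤ k i * (2 * 2 ^ h i) := Nat.mul_le_mul_left _ h12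
          _ = _ := by ring
      exact_mod_cast h13
  have hl2 : Real.log 2 ≤ 1 := by
    have := Real.log_two_lt_d9
    linarith
  have hl2' : 1 / 2 ≤ Real.log 2 := by
    have := Real.log_two_gt_d9
    linarith
  have hl0 : 0 < Real.log 2 := by linarith
  set D : ℝ := 2 * Real.exp 20 with hD
  have hD0 : 0 < D := by positivity
  have hD1 : 1 ≤ D := by
    have : 1 ≤ Real.exp 20 := Real.one_le_exp (by norm_num)
    linarith
  -- the probabilities
  have htau : ∀ᶠ i : ℕ in atTop, (k i : ℝ) ≤ 1 / (64 * D) * i →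
      (i : ℝ) ≤ tau h k i * 2 ^ (i - h i) := by
    have h1 : ∀ᶠ i : ℕ in atTop, (i : ℝ) ^ 4 ≤ Real.exp (i / 4) := by
      have h2 := Real.tendsto_exp_div_pow_atTop 4
      have h3 : Tendsto (fun i : ℕ => (i : ℝ) / 4) atTop atTop :=
        tendsto_natCast_atTop_atTop.atTop_div_const (by norm_num)
      filter_upwards [(h2.comp h3).eventually_ge_atTop (4 ^ 4), eventually_ge_atTop 1] with i h4 h5
      have hi : (0:ℝ) < i := by exact_mod_cast h5
      simp only [Function.comp] at h4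
      rw [le_div_iff₀ (by positivity)] at h4
      calc (i:ℝ) ^ 4 = 4 ^ 4 * ((i:ℝ) / 4) ^ 4 := by ring
        _ ≤ _ := h4
    filter_upwards [h1, hH] with i h2 h3 g3
    obtain ⟨g2, h3⟩ := h3
    have hi0 : (0:ℝ) < i := by exact_mod_cast (by omega : 0 < i)
    have hki : k i ≤ i := by
      have h4 : (1:ℝ) / (64 * D) * i ≤ 1 * i := by
        apply mul_le_mul_of_nonneg_right _ hi0.le
        rw [div_le_one (by positivity)]
        linarith
      have : (k i : ℝ) ≤ i := by linarith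
      exact_mod_cast this
    obtain ⟨g1, g4, g5⟩ := h3 hki
    have hkp : (0:ℝ) < k i := by exact_mod_cast hk0 i
    have hHp : (0:ℝ) < (2:ℝ) ^ h i := by positivity
    have hsq : Real.sqrt ((2:ℝ) ^ h i * (1 / ((i : ℝ) * Real.log 2)) / k i) ≤ 2 * (i / k i) := by
      rw [Real.sqrt_le_left (by positivity)]
      rw [mul_one_div, div_div, div_le_iff₀ (by positivity)]
      have e1 : (2 * ((i:ℝ) / k i)) ^ 2 * (i * Real.log 2 * k i) = 4 * Real.log 2 * ((i:ℝ) ^ 3 / k i) := by
        field_simp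
        norm_num
      rw [e1]
      have e2 : (2:ℝ) ^ h i ≤ (i:ℝ) ^ 3 / k i := by
        rw [le_div_iff₀ hkp]
        exact g4
      have e3 : (0:ℝ) ≤ (i:ℝ) ^ 3 / k i := by positivity
      nlinarith
    have hx0 : (0:ℝ) < k i / i := by positivity
    have htau1 : Real.exp (-(i / 4)) ≤ tau h k i := by
      unfold tau
      have e1 : Real.exp 20 * Real.sqrt ((2:ℝ) ^ h i * (1 / ((i : ℝ) * Real.log 2)) / k i) ≤
          D / (k i / i) := by
        calc Real.exp 20 * Real.sqrt ((2:ℝ) ^ h i * (1 / ((i : ℝ) * Real.log 2)) / k i)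
            ≤ Real.exp 20 * (2 * (i / k i)) := mul_le_mul_of_nonneg_left hsq (Real.exp_pos _).le
          _ = D / (k i / i) := by
              rw [hD]
              field_simp
      have e2 : 0 < Real.exp 20 * Real.sqrt ((2:ℝ) ^ h i * (1 / ((i : ℝ) * Real.log 2)) / k i) := by
        apply mul_pos (Real.exp_pos _)
        apply Real.sqrt_pos.2
        positivity
      have e3 : (D / (k i / i))⁻¹ ^ k i ≤ (Real.exp 20 *
          Real.sqrt ((2:ℝ) ^ h i * (1 / ((i : ℝ) * Real.log 2)) / k i))⁻¹ ^ k i :=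
        pow_le_pow_left₀ (by positivity) (inv_anti₀ e2 e1) _
      refine le_trans ?_ e3
      have e4 : (D / (k i / i))⁻¹ ^ k i = Real.exp (-(k i * Real.log (D / (k i / i)))) := by
        rw [inv_pow, Real.exp_neg, Real.exp_nat_mul, Real.exp_log (by positivity)]
      rw [e4]
      apply Real.exp_le_exp.2
      have e5 := log_bound hD0 hx0
      have e6 : Real.sqrt (D * (k i / i)) ≤ 1 / 8 := by
        rw [Real.sqrt_le_left (by norm_num)]
        have : (k i : ℝ) / i ≤ 1 / (64 * D) := by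
          rw [div_le_iff₀ hi0]
          exact g3
        calc D * ((k i : ℝ) / i) ≤ D * (1 / (64 * D)) := mul_le_mul_of_nonneg_left this hD0.le
          _ = (1 / 8) ^ 2 := by
              field_simp
              norm_num
      have e7 : (k i : ℝ) * Real.log (D / (k i / i)) = i * (k i / i * Real.log (D / (k i / i))) := by
        field_simp
      rw [e7]
      nlinarith
    have hM : Real.exp (i / 2) / (i:ℝ) ^ 3 ≤ 2 ^ (i - h i) := by
      have e1 : (2:ℝ) ^ (i - h i) * 2 ^ h i = 2 ^ i := by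
        rw [← pow_add]
        congr 1
        omega
      have e2 : (2:ℝ) ^ h i ≤ (i:ℝ) ^ 3 := by
        have : (1:ℝ) ≤ k i := by exact_mod_cast hk0 i
        nlinarith
      have e3 : Real.exp (i / 2) ≤ 2 ^ i := by
        have e4 : (2:ℝ) ^ i = Real.exp (i * Real.log 2) := by
          rw [Real.exp_nat_mul, Real.exp_log (by norm_num)]
        rw [e4]
        apply Real.exp_le_exp.2
        nlinarith
      rw [div_le_iff₀ (by positivity)]
      calc Real.exp (i / 2) ≤ 2 ^ i := e3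
        _ = (2:ℝ) ^ (i - h i) * 2 ^ h i := e1.symm
        _ ≤ _ := mul_le_mul_of_nonneg_left e2 (by positivity)
    calc (i:ℝ) ≤ Real.exp (i / 4) / (i:ℝ) ^ 3 := by
          rw [le_div_iff₀ (by positivity)]
          calc (i:ℝ) * (i:ℝ) ^ 3 = (i:ℝ) ^ 4 := by ring
            _ ≤ _ := h2
      _ = Real.exp (-(i / 4)) * (Real.exp (i / 2) / (i:ℝ) ^ 3) := by
          rw [mul_div_assoc', ← Real.exp_add]
          congr 2
          ring
      _ ≤ _ := mul_le_mul htau1 hM (by positivity) ((Real.exp_pos _).le.trans htau1)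
  -- the conditions of the model
  obtain ⟨i₀, hi₀⟩ := eventually_atTop.1 (hH.and htau)
  set g : Set ℕ := {i | i₀ ≤ i ∧ (k i : ℝ) ≤ 1 / (64 * D) * i} with hg
  have hgi : ∀ i, i ∈ g ↔ i₀ ≤ i ∧ (k i : ℝ) ≤ 1 / (64 * D) * i := fun i => Iff.rfl
  have h64 : (1:ℝ) / (64 * D) ≤ 1 / 15 := one_div_le_one_div_of_le (by norm_num) (by linarith)
  have hkig : ∀ i, i ∈ g → k i ≤ i ∧ (k i : ℝ) ≤ 1 / 15 * i := by
    intro i hi
    rw [hgi] at hi
    have hi0 : (0:ℝ) ≤ i := Nat.cast_nonneg i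
    have h4 : (1:ℝ) / (64 * D) * i ≤ 1 / 15 * i := mul_le_mul_of_nonneg_right h64 hi0
    refine ⟨?_, by linarith [hi.2]⟩
    have : (k i : ℝ) ≤ i := by linarith [hi.2]
    exact_mod_cast this
  obtain ⟨Ω, mΩ, P, hP, E, G, hE, hG, hT, hGE, hs⟩ := dyadic_model h k L g
    (fun i => min_le_left _ _) (fun i hi => by
      obtain ⟨hki, g3⟩ := hkig i hi
      rw [hgi] at hi
      obtain ⟨⟨g2, g6⟩, g7⟩ := hi₀ i hi.1
      obtain ⟨g1, g4, g5⟩ := g6 hki
      refine ⟨even_two_mul _, hk0 i, ?_, g2, ?_⟩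
      · simp only [hk]
        omega
      · have hi6 : (6:ℝ) ≤ i := by exact_mod_cast g2
        have hkp : (0:ℝ) < k i := by exact_mod_cast hk0 i
        rw [mul_one_div, le_div_iff₀ (by positivity)]
        have h1 : 100 * (k i : ℝ) * (i * Real.log 2) ≤ 100 * k i * i := by
          have : (i : ℝ) * Real.log 2 ≤ i * 1 := mul_le_mul_of_nonneg_left hl2 (by linarith)
          nlinarith
        refine h1.trans ?_
        refine le_of_mul_le_mul_right ?_ hkp
        have h2 : (k i : ℝ) ^ 2 ≤ (1 / 15 * i) ^ 2 := pow_le_pow_left₀ hkp.le g3 2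
        have h3 : (i:ℝ) * (k i : ℝ) ^ 2 ≤ i * (1 / 15 * i) ^ 2 :=
          mul_le_mul_of_nonneg_left h2 (by linarith)
        have h4 : 0 ≤ (i:ℝ) ^ 3 := by positivity
        nlinarith)
  refine ⟨Ω, mΩ, P, hP, E, ⟨hE, ?_⟩, ?_⟩
  · intro T hTc
    rw [hT T ?_]
    · congr 1
      refine prod_congr rfl fun n hn => ?_
      unfold cp
      rw [if_pos (hTc n hn).1]
    · intro n hn
      refine (hTc n hn).2.trans ?_
      simp only [hL]
      apply Finset.le_sup (f := κ)
      rw [mem_Ico]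
      exact ⟨Nat.pow_log_le_self 2 (by have := (hTc n hn).1; omega),
        Nat.lt_pow_succ_log_self (by norm_num) n⟩
  set bad : ℕ → Set Ω := fun i => if i ∈ g then (G i)ᶜ else ∅ with hbad
  have hbound : ∀ i, P (bad i) ≤ ENNReal.ofReal (Real.exp (-i)) := by
    intro i
    simp only [hbad]
    split_ifs with hi
    · have h1 := hs {i} (by simpa using hi)
      simp only [mem_singleton, Set.iInter_iInter_eq_left, sum_singleton] at h1
      refine h1.trans (ENNReal.ofReal_le_ofReal (Real.exp_le_exp.2 ?_))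
      have := (hi₀ i hi.1).2 hi.2
      linarith
    · simp
  have hsum : ∑' i, P (bad i) ≠ ⊤ := by
    have h1 : Summable (fun i : ℕ => Real.exp (-i)) := Real.summable_exp_neg_nat
    exact ne_top_of_le_ne_top h1.tsum_ofReal_ne_top (ENNReal.tsum_le_tsum hbound)
  filter_upwards [ae_eventually_notMem hsum] with ω hω K
  set K' : ℝ := max K 1 with hK'
  have hK1 : 1 ≤ K' := le_max_right _ _
  have hKK : K ≤ K' := le_max_left _ _
  set δ : ℝ := 1 / (256 * (D * K')) with hδ
  have hδ0 : 0 < δ := by positivity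
  refine ⟨δ, hδ0, ?_⟩
  filter_upwards [hω, eventually_ge_atTop (i₀ + 2),
    tendsto_natCast_atTop_atTop.eventually_ge_atTop (2 / δ)] with i hnb hii hiδ hLi X hX1 hX2
  have hki : (k i : ℝ) ≤ 4 * δ * i := by
    rw [div_le_iff₀ hδ0] at hiδ
    have : (k i : ℝ) = 2 * (L i + 1) := by
      simp only [hk]
      push_cast
      ring
    rw [this]
    have h1 : (L i : ℝ) ≤ δ * i := hLi
    nlinarith
  have hi00 : (0:ℝ) ≤ i := Nat.cast_nonneg i
  have hDK : 0 < D * K' := by positivity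
  have hk1 : (k i : ℝ) ≤ 1 / (64 * D) * i := by
    refine hki.trans (mul_le_mul_of_nonneg_right ?_ hi00)
    rw [hδ, mul_one_div, div_le_div_iff₀ (by positivity) (by positivity)]
    nlinarith
  have hk2 : (k i : ℝ) ≤ 1 / (8 * K') * i := by
    refine hki.trans (mul_le_mul_of_nonneg_right ?_ hi00)
    rw [hδ, mul_one_div, div_le_div_iff₀ (by positivity) (by positivity)]
    nlinarith
  have hig : i ∈ g := ⟨by omega, hk1⟩
  simp only [hbad, if_pos hig] at hnb
  have hGi : ω ∈ G i := by simpa using hnb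
  obtain ⟨j, hj1, hj2, hj3⟩ := hGE i ω hGi
  obtain ⟨⟨g2, g6⟩, g7⟩ := hi₀ i (by omega)
  obtain ⟨g1, g4, g5⟩ := g6 (hkig i hig).1
  have hi0 : (6:ℝ) ≤ i := by exact_mod_cast g2
  have hkp : (0:ℝ) < k i := by exact_mod_cast hk0 i
  have hXpos : 0 < X := lt_of_lt_of_le (by positivity) hX1
  have hlX : Real.log X ≤ 2 * i := by
    have h1 : Real.log X ≤ Real.log ((2:ℝ) ^ (i + 2)) := by
      apply Real.log_le_log
      · exact_mod_cast hXpos
      · exact_mod_cast hX2.le
    rw [Real.log_pow] at h1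
    push_cast at h1
    nlinarith
  have hlX0 : 0 ≤ Real.log X := Real.log_natCast_nonneg X
  have hKX : K * Real.log X ^ 2 ≤ 2 ^ h i := by
    have h1 : Real.log X ^ 2 ≤ (2 * (i:ℝ)) ^ 2 := pow_le_pow_left₀ hlX0 hlX 2
    have h2 : K * Real.log X ^ 2 ≤ K' * (2 * (i:ℝ)) ^ 2 :=
      mul_le_mul hKK h1 (by positivity) (by linarith)
    refine h2.trans ?_
    refine le_of_mul_le_mul_right ?_ hkp
    have h3 : K' * (2 * (i:ℝ)) ^ 2 * k i ≤ K' * (2 * (i:ℝ)) ^ 2 * (1 / (8 * K') * i) :=
      mul_le_mul_of_nonneg_left hk2 (by positivity)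
    refine h3.trans ?_
    have h4 : K' * (2 * (i:ℝ)) ^ 2 * (1 / (8 * K') * i) = (i:ℝ) ^ 3 / 2 := by
      field_simp
      ring
    rw [h4]
    linarith
  have hj0 : 1 ≤ j * 2 ^ h i := le_trans (Nat.one_le_two_pow) hj1
  have hcast : ((j * 2 ^ h i - 1 : ℕ) : ℝ) = (j:ℝ) * 2 ^ h i - 1 := by
    rw [Nat.cast_sub hj0]
    push_cast
    ring
  refine ⟨j * 2 ^ h i - 1, ?_, ?_⟩
  · rw [hcast]
    have h1 : (((j + 1) * 2 ^ h i : ℕ) : ℝ) ≤ X := by exact_mod_cast hj2.trans hX1
    push_cast at h1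
    linarith
  · intro n hn1 hn2
    apply hj3 n
    · omega
    · rw [hcast] at hn2
      have h1 : (n:ℝ) < (((j + 1) * 2 ^ h i : ℕ) : ℝ) := by
        push_cast
        linarith
      exact_mod_cast h1

/-- independence of order `o(log n)` does not suffice -/
theorem not_suffices {κ : ℕ → ℕ} (hκ : Tendsto (fun n : ℕ => (κ n : ℝ) / Real.log n) atTop (𝓝 0)) :
    ∃ (Ω : Type) (_ : MeasurableSpace Ω) (P : Measure Ω) (_ : IsProbabilityMeasure P)
      (E : ℕ → Set Ω), Model P κ E ∧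
      ∀ᵐ ω ∂P, ∀ K : ℝ, ∀ᶠ X : ℕ in atTop, ∃ x : ℕ, (x : ℝ) + K * Real.log X ^ 2 ≤ X ∧
        ∀ n : ℕ, x < n → (n : ℝ) ≤ x + K * Real.log X ^ 2 → ω ∉ E n := by
  obtain ⟨Ω, mΩ, P, hP, E, hM, hE⟩ := block_model κ
  refine ⟨Ω, mΩ, P, hP, E, hM, ?_⟩
  filter_upwards [hE] with ω hω K
  obtain ⟨δ, hδ, h1⟩ := hω K
  obtain ⟨i₁, hi₁⟩ := eventually_atTop.1 (h1.and (sup_scale hκ hδ))
  filter_upwards [eventually_ge_atTop (2 ^ (i₁ + 1))] with X hX
  have hX0 : X ≠ 0 := by
    have : 0 < 2 ^ (i₁ + 1) := by positivity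
    omega
  have hlogX : i₁ + 1 ≤ Nat.log 2 X := Nat.le_log_of_pow_le (by norm_num) hX
  obtain ⟨i, hi⟩ : ∃ i, Nat.log 2 X = i + 1 := ⟨Nat.log 2 X - 1, by omega⟩
  have hX1 : 2 ^ (i + 1) ≤ X := by
    rw [← hi]
    exact Nat.pow_log_le_self 2 hX0
  have hX2 : X < 2 ^ (i + 2) := by
    have := Nat.lt_pow_succ_log_self (show 1 < 2 by norm_num) X
    rw [hi] at this
    exact this
  obtain ⟨g1, g2⟩ := hi₁ i (by omega)
  exact g1 g2 X hX1 hX2

/-- monotone orders of independence that are not at least `c log n` do not suffice -/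
theorem not_suffices_mono {κ : ℕ → ℕ} (hmono : Monotone κ)
    (hκ : ¬ ∃ c : ℝ, 0 < c ∧ ∀ᶠ n : ℕ in atTop, c * Real.log n ≤ κ n) :
    ∃ (Ω : Type) (_ : MeasurableSpace Ω) (P : Measure Ω) (_ : IsProbabilityMeasure P)
      (E : ℕ → Set Ω), Model P κ E ∧
      ∀ᵐ ω ∂P, ∀ K : ℝ, ∃ᶠ X : ℕ in atTop, ∃ x : ℕ, (x : ℝ) + K * Real.log X ^ 2 ≤ X ∧
        ∀ n : ℕ, x < n → (n : ℝ) ≤ x + K * Real.log X ^ 2 → ω ∉ E n := by
  obtain ⟨Ω, mΩ, P, hP, E, hM, hE⟩ := block_model κ
  refine ⟨Ω, mΩ, P, hP, E, hM, ?_⟩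
  filter_upwards [hE] with ω hω K
  obtain ⟨δ, hδ, h1⟩ := hω K
  obtain ⟨i₁, hi₁⟩ := eventually_atTop.1 h1
  have h2 : ∃ᶠ n : ℕ in atTop, (κ n : ℝ) < δ / 2 * Real.log n := by
    rw [Filter.Frequently]
    intro h3
    apply hκ
    refine ⟨δ / 2, by positivity, ?_⟩
    filter_upwards [h3] with n h4
    linarith
  refine (h2.and_eventually (eventually_ge_atTop (2 ^ (i₁ + 3)))).mono ?_
  rintro X ⟨h3, hX⟩
  have hX0 : X ≠ 0 := by
    have : 0 < 2 ^ (i₁ + 3) := by positivity
    omega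
  have hlogX : i₁ + 3 ≤ Nat.log 2 X := Nat.le_log_of_pow_le (by norm_num) hX
  obtain ⟨i, hi⟩ : ∃ i, Nat.log 2 X = i + 1 := ⟨Nat.log 2 X - 1, by omega⟩
  have hX1 : 2 ^ (i + 1) ≤ X := by
    rw [← hi]
    exact Nat.pow_log_le_self 2 hX0
  have hX2 : X < 2 ^ (i + 2) := by
    have := Nat.lt_pow_succ_log_self (show 1 < 2 by norm_num) X
    rw [hi] at this
    exact this
  refine hi₁ i (by omega) ?_ X hX1 hX2
  have h4 : (Ico (2 ^ i) (2 ^ (i + 1))).sup κ ≤ κ X := by
    apply Finset.sup_le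
    intro n hn
    rw [mem_Ico] at hn
    exact hmono (by omega)
  have h5 : (((Ico (2 ^ i) (2 ^ (i + 1))).sup κ : ℕ) : ℝ) ≤ κ X := by exact_mod_cast h4
  have h6 : Real.log X ≤ 2 * i := by
    have h7 : Real.log X ≤ Real.log ((2:ℝ) ^ (i + 2)) := by
      apply Real.log_le_log
      · exact_mod_cast (by omega : 0 < X)
      · exact_mod_cast hX2.le
    rw [Real.log_pow] at h7
    have h8 := Real.log_two_lt_d9
    have h9 : (2:ℝ) ≤ i := by exact_mod_cast (by omega : 2 ≤ i)
    push_cast at h7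
    nlinarith
  nlinarith

end Q198.CI
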